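import Pool.Agent.ZPC2.Main
import Pool.Agent.AST.Main

/-!
From the affine slot property to isolated elements and to the elementary type conjecture for
`-1 = 1` (notes 3205 of helper18, 1814 of helper99), typed by helper66.
-/

set_option autoImplicit false
set_option linter.unusedSectionVars false

namespace Pool.Agent.ZPC2

open QS Pool.Agent.AST

/-- the affine slot property: if `c` is a value of every element of the coset `a K`, there is one
`y` with `q (x, y) = c` for all `x ∈ a K` -/
def AffineSlot (S : QStruct) : Prop :=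
  ∀ (c : S.Q) (a : S.G) (K : Subgroup S.G), (∀ k ∈ K, ∃ y, S.q (a * k) y = c) →
    ∃ y, ∀ k ∈ K, S.q (a * k) y = c

/-- the set valued map of a structure -/
def toBD (S : QStruct) : BD (Additive S.G) (Additive S.G) S.Q where
  q x y := S.q (Additive.toMul x) (Additive.toMul y)
  z := S.zero
  qr v w w1 := S.qs3 _ _ _
  ql v v1 w := by
    rw [S.qs2 (Additive.toMul v), S.qs2 (Additive.toMul v1), S.qs2 (Additive.toMul (v + v1))]
    exact S.qs3 _ _ _

variable {S : QStruct}

theorem bd_symm (x y : Additive S.G) : (toBD S).q x y = (toBD S).q y x := S.qs2 _ _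

theorem bd_diag (hneg : S.neg = 1) (x : Additive S.G) : (toBD S).q x x = (toBD S).z := by
  have h := S.qs1 (Additive.toMul x)
  rw [hneg, one_mul] at h
  exact h

theorem fw_of (h : AffineSlot S) (c : S.Q) : FW (toBD S) c := by
  rintro K w w1 ⟨v, hv, h1⟩ ⟨v', hv', h2⟩
  let K' : Submodule (ZMod 2) (Additive S.G) := K ⊔ Submodule.span (ZMod 2) {w + w1}
  have hK' : ∀ k' ∈ K', k' ∈ K ∨ k' + (w + w1) ∈ K := by
    intro k' hk'
    obtain ⟨a, ha, b, hb, rfl⟩ := Submodule.mem_sup.1 hk'
    obtain ⟨r, rfl⟩ := Submodule.mem_span_singleton.1 hb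
    rcases smul_cases r (w + w1) with e | e
    · left
      rw [e, add_zero]
      exact ha
    · right
      rw [e, aa]
      exact ha
  let U : Subgroup S.G := AddSubgroup.toSubgroup' K'.toAddSubgroup
  obtain ⟨y, hy⟩ := h c (Additive.toMul w) U (by
    intro k hk
    have hk1 : (Additive.ofMul k) ∈ K' := hk
    rcases hK' _ hk1 with e | e
    · refine ⟨Additive.toMul v, ?_⟩
      show (toBD S).q (w + Additive.ofMul k) v = c
      apply BD.l0
      · rw [bd_symm]
        exact h1
      · rw [bd_symm]
        exact hv _ e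
    · refine ⟨Additive.toMul v', ?_⟩
      show (toBD S).q (w + Additive.ofMul k) v' = c
      have e2 : w + Additive.ofMul k = w1 + (Additive.ofMul k + (w + w1)) := by
        have : w1 + (Additive.ofMul k + (w + w1)) = w + Additive.ofMul k + w1 + w1 := by abel
        rw [this, aa]
      rw [e2]
      apply BD.l0
      · rw [bd_symm]
        exact h2
      · rw [bd_symm]
        exact hv' _ e)
  have hy' : ∀ k ∈ K', (toBD S).q (w + k) (Additive.ofMul y) = c := fun k hk => hy _ hk
  have h3 := hy' 0 (zero_mem _)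
  rw [add_zero] at h3
  have h4 := hy' (w + w1) (Submodule.mem_sup_right (Submodule.mem_span_singleton_self _))
  rw [ab] at h4
  refine ⟨Additive.ofMul y, fun k hk => ?_, ?_, ?_⟩
  · rw [bd_symm]
    exact BD.ld (hy' k (Submodule.mem_sup_left hk)) h3
  · rw [bd_symm]
    exact h3
  · rw [bd_symm]
    exact h4

theorem fv_of {c : S.Q} (h : FW (toBD S) c) : FV (toBD S) c := by
  rintro u v v1 ⟨w, h1, h2⟩ ⟨w1, h3, h4⟩
  have key : ∀ t, (toBD S).q u t = (toBD S).z →
      t ∈ VK (toBD S) (Submodule.span (ZMod 2) {u}) := by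
    intro t ht x hx
    obtain ⟨r, rfl⟩ := Submodule.mem_span_singleton.1 hx
    rcases smul_cases r u with e | e
    · rw [e, BD.q0]
    · rw [e, bd_symm]
      exact ht
  obtain ⟨t, ht, h5, h6⟩ := h (Submodule.span (ZMod 2) {u}) v v1
    ⟨w, key w h1, by rw [bd_symm]; exact h2⟩ ⟨w1, key w1 h3, by rw [bd_symm]; exact h4⟩
  refine ⟨t, ?_, ?_, ?_⟩
  · rw [bd_symm]
    exact ht u (Submodule.mem_span_singleton_self u)
  · rw [bd_symm]
    exact h5
  · rw [bd_symm]
    exact h6

/-- index two -/
theorem two_cosets {V : Type} [AddCommGroup V] [Module (ZMod 2) V] [Finite V]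
    (A M : Submodule (ZMod 2) V)
    (h : Nat.card A = 2 * Nat.card (A ⊓ M : Submodule (ZMod 2) V)) {v w : V} (hv : v ∈ A)
    (hw : w ∈ A) (hv' : v ∉ M) (hw' : w ∉ M) : v + w ∈ M := by
  by_contra hvw
  have h1 : Nat.card (Fin 3 × (A ⊓ M : Submodule (ZMod 2) V)) ≤ Nat.card A := by
    let s : Fin 3 → V := ![0, v, w]
    have hs : ∀ i, s i ∈ A := by
      intro i
      fin_cases i
      · exact zero_mem _
      · exact hv
      · exact hw
    have hd : ∀ i j, i ≠ j → s i + s j ∉ M := by
      intro i j hij
      fin_cases i <;> fin_cases j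
      · exact absurd rfl hij
      · show 0 + v ∉ M
        rw [zero_add]
        exact hv'
      · show 0 + w ∉ M
        rw [zero_add]
        exact hw'
      · show v + 0 ∉ M
        rw [add_zero]
        exact hv'
      · exact absurd rfl hij
      · exact hvw
      · show w + 0 ∉ M
        rw [add_zero]
        exact hw'
      · show w + v ∉ M
        rw [add_comm]
        exact hvw
      · exact absurd rfl hij
    apply Nat.card_le_card_of_injective
      (fun p : Fin 3 × (A ⊓ M : Submodule (ZMod 2) V) => (⟨s p.1 + p.2.1,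
        A.add_mem (hs p.1) p.2.2.1⟩ : A))
    rintro ⟨i, ⟨m, hm⟩⟩ ⟨j, ⟨n, hn⟩⟩ hij
    have h2 : s i + m = s j + n := congrArg Subtype.val hij
    have h3 : s i + s j = m + n := by
      have : s i + m + (m + s j) = s j + n + (m + s j) := by rw [h2]
      calc s i + s j = s i + m + (m + s j) := by rw [add_assoc, ab]
        _ = s j + n + (m + s j) := this
        _ = m + n := by
          rw [add_comm (s j) n, add_comm m (s j), add_assoc, ab, add_comm]
    have h4 : i = j := by
      by_contra hne
      apply hd i j hne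
      rw [h3]
      exact M.add_mem hm.2 hn.2
    subst h4
    have h5 : m = n := add_left_cancel h2
    subst h5
    rfl
  rw [Nat.card_prod, Nat.card_eq_fintype_card, Fintype.card_fin, h] at h1
  have h2 : 0 < Nat.card (A ⊓ M : Submodule (ZMod 2) V) := Nat.card_pos
  omega

/-- **T2**: linkage of the centralizers at every value gives an isolated element -/
theorem isolated_of (hstar : Star) (S : QStruct) [Finite S.G] (hneg : S.neg = 1)
    (h : ∀ c, FW (toBD S) c) (hg : ∃ g : S.G, g ≠ 1) : ∃ x, Isolated S x := by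
  have hfin : Finite (Additive S.G) := (inferInstance : Finite S.G)
  obtain ⟨g, hg⟩ := hg
  have : Nonempty {y : Additive S.G // y ≠ 0} := ⟨⟨Additive.ofMul g, hg⟩⟩
  obtain ⟨⟨y, hy0⟩, hy⟩ := Finite.exists_max
    (fun y : {y : Additive S.G // y ≠ 0} => Nat.card (Wa (toBD S) y.1))
  have hH : Heavy (toBD S) y := fun v hv => hy ⟨v, hv⟩
  refine ⟨Additive.toMul y, hy0, ?_⟩
  intro v hv w hw
  have hc : (toBD S).q y (Additive.ofMul v) ≠ (toBD S).z := hv
  have hsy : Sc (toBD S) ((toBD S).q y (Additive.ofMul v)) y := ⟨_, rfl⟩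
  have hsv : Sc (toBD S) ((toBD S).q y (Additive.ofMul v)) (Additive.ofMul v) := ⟨y, bd_symm _ _⟩
  have hss : Sc (toBD S) ((toBD S).q y (Additive.ofMul v)) (Additive.ofMul v + y) :=
    ⟨y, BD.l0 (bd_symm _ _) (bd_diag hneg y)⟩
  have e := zpc hstar _ _ _ _ (toBD S) ((toBD S).q y (Additive.ofMul v)) (Additive.ofMul v) y rfl hc
    (h _) (fv_of (h _)) hH hsv hsy hss
  by_cases h1 : Additive.ofMul w ∈ Wa (toBD S) y
  · exact Or.inl h1
  · right
    exact two_cosets (Wa (toBD S) (Additive.ofMul v)) (Wa (toBD S) y) e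
      (v := Additive.ofMul v) (w := Additive.ofMul w) (bd_diag hneg _) hw hc h1

/-- the affine slot property for all structures with `-1 = 1` gives the elementary type conjecture
for `-1 = 1` -/
theorem elem_of_affineSlot (hstar : Star)
    (h : ∀ S : QStruct, Finite S.G → S.neg = 1 → AffineSlot S) :
    ∀ S : QStruct, Finite S.G → S.neg = 1 → ElemType S :=
  (final ASZ RED).2.2.2.2 fun S hf hneg hg =>
    isolated_of hstar S hneg (fun c => fw_of (h S hf hneg) c) hg

end Pool.Agent.ZPC2
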