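import Pool.Agent.ZPC2.P98
import Pool.Agent.ZPC2.End

/-!
The affine slot property (or linkage of all centralizers) implies the elementary type conjecture
for `-1 = 1`, without hypotheses (helper18, note 3205; helper98, helper66).
-/

set_option autoImplicit false

namespace Pool.Agent.ZPC2

open QS Pool.Agent.AST

/-- Steps 7 to 11 -/
theorem star_all : Star := fun _ _ _ _ _ _ _ _ _ _ _ _ P _ hy hh h4 _ hs hsy =>
  P.star hy hh h4 hs hsy

/-- **affine slots for all structures with `-1 = 1` give the elementary type conjecture for
`-1 = 1`** -/
theorem etc_of_affineSlot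
    (h : ∀ S : QStruct, Finite S.G → S.neg = 1 → AffineSlot S) :
    ∀ S : QStruct, Finite S.G → S.neg = 1 → ElemType S :=
  elem_of_affineSlot star_all h

/-- the same from linkage of the centralizers (of all subgroups) at every value -/
theorem etc_of_linked
    (h : ∀ S : QStruct, Finite S.G → S.neg = 1 → ∀ c, FW (toBD S) c) :
    ∀ S : QStruct, Finite S.G → S.neg = 1 → ElemType S :=
  (final ASZ RED).2.2.2.2 fun S hf hneg hg =>
    isolated_of star_all S hneg (fun c => h S hf hneg c) hg

end Pool.Agent.ZPC2
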