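import Pool.Agent.ZPC2.Defs

/-!
Steps 1 and 2 of note 3205 (helper18), set valued, typed by helper66.
-/

set_option autoImplicit false
set_option linter.unusedSectionVars false

namespace Pool.Agent.ZPC2

variable {V W Q : Type} [AddCommGroup V] [Module (ZMod 2) V] [AddCommGroup W]
  [Module (ZMod 2) W] {D : BD V W Q} {c : Q}

/-- `v` is a neighbour of `u` -/
def Ad (D : BD V W Q) (c : Q) (u v : V) : Prop := Sc D c v ∧ Sc D c (u + v)

theorem ad_iff (h : FV D c) {u v : V} : Ad D c u v ↔ ∃ w, D.q u w = D.z ∧ D.q v w = c := by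
  constructor
  · rintro ⟨h1, h2⟩
    obtain ⟨w, h3, h4⟩ := h.link h1 h2
    refine ⟨w, ?_, h3⟩
    rw [add_comm] at h4
    exact BD.ld h4 h3
  · rintro ⟨w, h1, h2⟩
    exact ⟨⟨w, h2⟩, w, BD.l0' h1 h2⟩

theorem Ad.symm {u v : V} (hu : Sc D c u) (h : Ad D c u v) : Ad D c v u :=
  ⟨hu, by rw [add_comm]; exact h.2⟩

/-- the neighbours of `u` are the points of one line `l` -/
def OneLine (D : BD V W Q) (c : Q) (u : V) (l : W) : Prop :=
  D.q u l = D.z ∧ (∃ v, D.q v l = c) ∧ ∀ t, Ad D c u t ↔ D.q t l = c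

theorem one_line (h : FV D c) {u v : V} (hv : Ad D c u v)
    (h0 : ∀ w, D.q u w = D.z → D.q v w = D.z → w = 0) : ∃ l, OneLine D c u l := by
  obtain ⟨l, h1, h2⟩ := (ad_iff h).1 hv
  refine ⟨l, h1, ⟨v, h2⟩, fun t => ⟨fun ht => ?_, fun ht => (ad_iff h).2 ⟨l, h1, ht⟩⟩⟩
  obtain ⟨w, h3, h4, h5⟩ := h u v t ((ad_iff h).1 hv) ((ad_iff h).1 ht)
  have : w + l = 0 := h0 _ (BD.r0 h3 h1) (BD.rc h4 h2)
  rw [eq_of_add this] at h5
  exact h5

theorem mem_VK_sup {K : Submodule (ZMod 2) W} {s : Set W} {v : V} :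
    v ∈ VK D (K ⊔ Submodule.span (ZMod 2) s) ↔ v ∈ VK D K ∧ ∀ a ∈ s, D.q v a = D.z := by
  constructor
  · intro h
    exact ⟨fun w hw => h w (Submodule.mem_sup_left hw),
      fun a ha => h a (Submodule.mem_sup_right (Submodule.subset_span ha))⟩
  · rintro ⟨h1, h2⟩
    have h3 : K ⊔ Submodule.span (ZMod 2) s ≤ Wa D v := by
      apply sup_le
      · exact fun w hw => h1 w hw
      · rw [Submodule.span_le]
        exact fun a ha => h2 a ha
    exact fun w hw => h3 hw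

/-- closure principle -/
theorem gen [Finite W] (hW : FW D c) (K : Submodule (ZMod 2) W) (X A : Set W)
    (h0 : ∀ w ∈ X, ∃ v ∈ VK D K, D.q v w = c)
    (h1 : ∀ a ∈ A, ∀ w ∈ X, ∃ w' ∈ X, ∀ v, D.q v w = c → D.q v w' = c → D.q v a = D.z) :
    ∀ w ∈ X, ∃ v ∈ VK D (K ⊔ Submodule.span (ZMod 2) A), D.q v w = c := by
  classical
  have key : ∀ s : Finset W, (∀ a ∈ s, a ∈ A) →
      ∀ w ∈ X, ∃ v ∈ VK D (K ⊔ Submodule.span (ZMod 2) (s : Set W)), D.q v w = c := by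
    intro s
    induction s using Finset.induction_on with
    | empty =>
      intro _ w hw
      rw [Finset.coe_empty, Submodule.span_empty, sup_bot_eq]
      exact h0 w hw
    | insert a s _ ih =>
      intro hs w hw
      have ih' := ih (fun b hb => hs b (Finset.mem_insert_of_mem hb))
      obtain ⟨w', hw', h2⟩ := h1 a (hs a (Finset.mem_insert_self a s)) w hw
      obtain ⟨v, hv, h3, h4⟩ := hW _ w w' (ih' w hw) (ih' w' hw')
      refine ⟨v, ?_, h3⟩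
      rw [mem_VK_sup] at hv ⊢
      refine ⟨hv.1, fun b hb => ?_⟩
      rw [Finset.coe_insert] at hb
      rcases hb with rfl | hb
      · exact h2 v h3 h4
      · exact hv.2 b hb
  intro w hw
  have := key A.toFinite.toFinset (fun a ha => (Set.Finite.mem_toFinset _).1 ha) w hw
  rwa [Set.Finite.coe_toFinset] at this

section oneline
variable {u : V} {l : W} (hW : FW D c) (hV : FV D c) (hl : OneLine D c u l)
include hW hV hl

theorem key {b : W} (hb : D.q u b = D.z) {t : V} (ht : D.q t (l + b) = c) :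
    D.q t b = D.z ∧ D.q t l = c := by
  have h1 : Ad D c u t := (ad_iff hV).2 ⟨l + b, BD.r0 hl.1 hb, ht⟩
  have h2 := (hl.2.2 t).1 h1
  exact ⟨BD.rd ht h2, h2⟩

/-- the subspace `A (u)` -/
def Au : Submodule (ZMod 2) W where
  carrier := {b | D.q u b = D.z ∧ ∃ t, D.q t l = c ∧ D.q t b = D.z}
  add_mem' := by
    rintro a b ⟨ha, s, hs, hs'⟩ ⟨hb, t, ht, ht'⟩
    refine ⟨BD.r0 ha hb, ?_⟩
    obtain ⟨v, h1, h2⟩ := hW.link (w := l + a) (w1 := l + b) ⟨s, BD.r0 hs hs'⟩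
      ⟨t, BD.r0 ht ht'⟩
    obtain ⟨h3, h4⟩ := key hW hV hl ha h1
    obtain ⟨h5, -⟩ := key hW hV hl hb h2
    exact ⟨v, h4, BD.r0 h3 h5⟩
  zero_mem' := by
    obtain ⟨v, hv⟩ := hl.2.1
    exact ⟨D.q0 _, v, hv, D.q0 _⟩
  smul_mem' := by
    rintro r a ⟨ha, t, ht, ht'⟩
    rcases smul_cases r a with h | h
    · rw [h]
      exact ⟨D.q0 _, t, ht, D.q0 _⟩
    · rw [h]
      exact ⟨ha, t, ht, ht'⟩

theorem mem_Au {b : W} : b ∈ Au hW hV hl ↔ D.q u b = D.z ∧ ∃ t, D.q t l = c ∧ D.q t b = D.z :=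
  Iff.rfl

/-- (2a) -/
theorem two_a [Finite W] (K : Submodule (ZMod 2) W)
    (hK : ∀ b ∈ Au hW hV hl, ∃ v ∈ VK D K, D.q v (l + b) = c) {w : W}
    (hw : ∃ v ∈ VK D K, D.q v w = c) :
    ∃ t ∈ VK D K, D.q t l = c ∧ D.q t w = c ∧ ∀ b ∈ Au hW hV hl, D.q t b = D.z := by
  have h := gen hW K ({x | ∃ b ∈ Au hW hV hl, x = l + b} ∪ {w}) (Au hW hV hl : Set W) (by
    rintro x (⟨b, hb, rfl⟩ | hx)
    · exact hK b hb
    · rw [Set.mem_singleton_iff] at hx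
      rw [hx]
      exact hw) (by
    intro a ha x _
    exact ⟨l + a, Or.inl ⟨a, ha, rfl⟩, fun v _ h2 => (key hW hV hl ha.1 h2).1⟩)
  obtain ⟨t, ht, h1, h2⟩ := hW _ l w
    (h l (Or.inl ⟨0, zero_mem _, by rw [add_zero]⟩)) (h w (Or.inr rfl))
  rw [mem_VK_sup] at ht
  exact ⟨t, ht.1, h1, h2, ht.2⟩

/-- (2b) -/
theorem two_b [Finite W] {v : V} (hv : D.q v l = c) :
    ∃ t, D.q t l = c ∧ (∀ a, D.q v a = D.z → D.q t a = D.z) ∧
      ∀ b ∈ Au hW hV hl, D.q t b = D.z := by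
  have h := gen hW ⊥ ({x | ∃ b ∈ Au hW hV hl, x = l + b} ∪ {x | ∃ a, D.q v a = D.z ∧ x = l + a})
    (Wa D v : Set W) (by
    rintro x (⟨b, ⟨-, t, ht, ht'⟩, rfl⟩ | ⟨a, ha, rfl⟩)
    · exact ⟨t, mem_VK_bot t, BD.r0 ht ht'⟩
    · exact ⟨v, mem_VK_bot v, BD.r0 hv ha⟩) (by
    rintro a ha x (⟨b, hb, rfl⟩ | ⟨a', ha', rfl⟩)
    · refine ⟨l + a, Or.inr ⟨a, ha, rfl⟩, fun t h1 h2 => ?_⟩
      exact BD.rd h2 (key hW hV hl hb.1 h1).2
    · refine ⟨l + a' + a, Or.inr ⟨a' + a, BD.r0 ha' ha, by rw [add_assoc]⟩, fun t h1 h2 => ?_⟩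
      exact BD.rd h2 h1)
  have hle : ∀ t ∈ VK D (⊥ ⊔ Submodule.span (ZMod 2) (Wa D v : Set W)), t ∈ VK D (Wa D v) := by
    intro t ht w hw
    exact (mem_VK_sup.1 ht).2 w hw
  obtain ⟨t, ht, h1, -, h2⟩ := two_a hW hV hl (Wa D v) (w := l) (fun b hb => by
    obtain ⟨t, ht, ht'⟩ := h (l + b) (Or.inl ⟨b, hb, rfl⟩)
    exact ⟨t, hle t ht, ht'⟩) ⟨v, fun w hw => hw, hv⟩
  exact ⟨t, h1, fun a ha => ht a ha, h2⟩

omit hW in
theorem E_of_Au {w : W} (h : D.q u w = D.z) {v : V} (hv : D.q v w = c) :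
    D.q u (w + l) = D.z ∧ D.q v l = c ∧ D.q v (w + l) = D.z := by
  have h1 := (hl.2.2 v).1 ((ad_iff hV).2 ⟨w, h, hv⟩)
  exact ⟨BD.r0 h hl.1, h1, BD.rc hv h1⟩

/-- if `A (u) = 0` then `l` is the only line killed by `u` -/
theorem E_single (hA : ∀ b ∈ Au hW hV hl, b = 0) {w : W} (h : D.q u w = D.z) {v : V}
    (hv : D.q v w = c) : w = l := by
  obtain ⟨h1, h2, h3⟩ := E_of_Au hV hl h hv
  exact eq_of_add (hA _ ⟨h1, v, h2, h3⟩)

/-- if the partner `v` is heaviest then `A (u) = 0` -/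
theorem Au_zero [Finite W] (hc : c ≠ D.z) {v : V} (hv : D.q v l = c)
    (h0 : ∀ w, D.q u w = D.z → D.q v w = D.z → w = 0) (hh : Heavy D v) :
    ∀ b ∈ Au hW hV hl, b = 0 := by
  intro b hb
  obtain ⟨t, h1, h2, h3⟩ := two_b hW hV hl hv
  have ht : t ≠ 0 := by
    rintro rfl
    rw [D.zq] at h1
    exact hc h1.symm
  have hle : Wa D v ≤ Wa D t := fun a ha => h2 a ha
  have heq : (Wa D v : Set W) = Wa D t := by
    apply Set.eq_of_subset_of_ncard_le hle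
    exact hh t ht
  have : b ∈ (Wa D v : Set W) := by
    rw [heq]
    exact h3 b hb
  exact h0 b hb.1 this

end oneline

end Pool.Agent.ZPC2
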