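import Mathlib

/-!
Set valued version of `ZPC/Defs`: values of a set valued bilinear map over `F_2` (the setting of
note 3205 (helper18)), typed by helper66.
-/

set_option autoImplicit false
set_option linter.unusedSectionVars false

namespace Pool.Agent.ZPC2

theorem aa {M : Type} [AddCommGroup M] [Module (ZMod 2) M] (x y : M) : x + y + y = x := by
  rw [add_assoc, ZModModule.add_self, add_zero]

theorem ab {M : Type} [AddCommGroup M] [Module (ZMod 2) M] (x y : M) : x + (x + y) = y := by
  rw [← add_assoc, ZModModule.add_self, zero_add]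

theorem eq_of_add {M : Type} [AddCommGroup M] [Module (ZMod 2) M] {x y : M} (h : x + y = 0) :
    x = y := by
  have := congrArg (fun t => t + y) h
  simp only [zero_add] at this
  rwa [aa] at this

/-- a set valued map that behaves like a bilinear map -/
structure BD (V W Q : Type) [AddCommGroup V] [Module (ZMod 2) V] [AddCommGroup W]
    [Module (ZMod 2) W] where
  q : V → W → Q
  z : Q
  qr : ∀ v w w1, q v w = q v w1 ↔ q v (w + w1) = z
  ql : ∀ v v1 w, q v w = q v1 w ↔ q (v + v1) w = z

variable {V W Q : Type} [AddCommGroup V] [Module (ZMod 2) V] [AddCommGroup W]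
  [Module (ZMod 2) W] (D : BD V W Q)

namespace BD

theorem q0 (v : V) : D.q v 0 = D.z := by
  have := (D.qr v 0 0).1 rfl
  rwa [add_zero] at this

theorem zq (w : W) : D.q 0 w = D.z := by
  have := (D.ql 0 0 w).1 rfl
  rwa [add_zero] at this

variable {D} {v v' : V} {w w' : W} {c : Q}

/-- value + zero = value (right) -/
theorem r0 (h : D.q v w = c) (h' : D.q v w' = D.z) : D.q v (w + w') = c := by
  rw [← h, D.qr, add_comm, ab, h']

/-- zero + value = value (right) -/
theorem r0' (h : D.q v w = D.z) (h' : D.q v w' = c) : D.q v (w + w') = c := by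
  rw [add_comm]
  exact r0 h' h

/-- value + value = zero (right) -/
theorem rc (h : D.q v w = c) (h' : D.q v w' = c) : D.q v (w + w') = D.z :=
  (D.qr v w w').1 (h.trans h'.symm)

/-- value + zero = value (left) -/
theorem l0 (h : D.q v w = c) (h' : D.q v' w = D.z) : D.q (v + v') w = c := by
  rw [← h, D.ql, add_comm, ab, h']

/-- zero + value = value (left) -/
theorem l0' (h : D.q v w = D.z) (h' : D.q v' w = c) : D.q (v + v') w = c := by
  rw [add_comm]
  exact l0 h' h

/-- value + value = zero (left) -/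
theorem lc (h : D.q v w = c) (h' : D.q v' w = c) : D.q (v + v') w = D.z :=
  (D.ql v v' w).1 (h.trans h'.symm)

/-- from a sum which has the value of the first summand -/
theorem rd (h : D.q v (w + w') = c) (h' : D.q v w = c) : D.q v w' = D.z := by
  have := rc h' h
  rwa [ab] at this

theorem ld (h : D.q (v + v') w = c) (h' : D.q v w = c) : D.q v' w = D.z := by
  have := lc h' h
  rwa [ab] at this

/-- from a sum with a zero summand -/
theorem re (h : D.q v (w + w') = c) (h' : D.q v w' = D.z) : D.q v w = c := by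
  have := r0 h h'
  rwa [aa] at this

theorem le (h : D.q (v + v') w = c) (h' : D.q v' w = D.z) : D.q v w = c := by
  have := l0 h h'
  rwa [aa] at this

end BD

theorem smul_cases {M : Type} [AddCommGroup M] [Module (ZMod 2) M] (r : ZMod 2) (a : M) :
    r • a = 0 ∨ r • a = a := by
  have : r = 0 ∨ r = 1 := by revert r; decide
  rcases this with rfl | rfl
  · exact Or.inl (zero_smul _ _)
  · exact Or.inr (one_smul _ _)

/-- the annihilator in `V` of a subspace of `W` -/
def VK (K : Submodule (ZMod 2) W) : Submodule (ZMod 2) V where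
  carrier := {v | ∀ w ∈ K, D.q v w = D.z}
  add_mem' := fun {a b} ha hb w hw => BD.l0 (ha w hw) (hb w hw)
  zero_mem' := fun w _ => D.zq w
  smul_mem' := fun r a ha w hw => by
    rcases smul_cases r a with h | h
    · rw [h]
      exact D.zq w
    · rw [h]
      exact ha w hw

theorem mem_VK {D : BD V W Q} {K : Submodule (ZMod 2) W} {v : V} :
    v ∈ VK D K ↔ ∀ w ∈ K, D.q v w = D.z := Iff.rfl

/-- the annihilator in `W` of an element of `V` -/
def Wa (v : V) : Submodule (ZMod 2) W where
  carrier := {w | D.q v w = D.z}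
  add_mem' := fun {a b} ha hb => BD.r0 ha hb
  zero_mem' := D.q0 v
  smul_mem' := fun r a ha => by
    rcases smul_cases r a with h | h
    · rw [h]
      exact D.q0 v
    · rw [h]
      exact ha

theorem mem_Wa {D : BD V W Q} {v : V} {w : W} : w ∈ Wa D v ↔ D.q v w = D.z := Iff.rfl

/-- `c` is a value of `v` -/
def Sc (c : Q) (v : V) : Prop := ∃ w, D.q v w = c

/-- linkage at `c` of the annihilators of the subspaces of `W` -/
def FW (c : Q) : Prop :=
  ∀ K : Submodule (ZMod 2) W, ∀ w w1 : W, (∃ v ∈ VK D K, D.q v w = c) →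
    (∃ v ∈ VK D K, D.q v w1 = c) → ∃ v ∈ VK D K, D.q v w = c ∧ D.q v w1 = c

/-- linkage at `c` of the annihilators of the elements of `V` -/
def FV (c : Q) : Prop :=
  ∀ u v v1 : V, (∃ w, D.q u w = D.z ∧ D.q v w = c) → (∃ w, D.q u w = D.z ∧ D.q v1 w = c) →
    ∃ w, D.q u w = D.z ∧ D.q v w = c ∧ D.q v1 w = c

/-- `y` has the largest annihilator -/
def Heavy (y : V) : Prop :=
  ∀ v, v ≠ 0 → Nat.card (Wa D v) ≤ Nat.card (Wa D y)

/-- the situation after Step 6 of note 3205: `l` is a bijection from the points (elements of `V`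
with value `c`) to the lines (elements of `W` with value `c`) such that the neighbours of `u` are
the points on the line `l u` -/
structure Pol (c : Q) (l : V → W) : Prop where
  c0 : c ≠ D.z
  fw : FW D c
  fv : FV D c
  p1 : ∀ {u}, Sc D c u → D.q u (l u) = D.z
  p2 : ∀ {u v}, Sc D c u → (D.q v (l u) = c ↔ Sc D c v ∧ Sc D c (u + v))
  p3 : ∀ {u v w}, Sc D c u → D.q u w = D.z → D.q v w = c → w = l u
  p4 : ∀ {u v}, Sc D c u → Sc D c v → l u = l v → u = v
  p5 : ∀ {v w}, D.q v w = c → ∃ u, Sc D c u ∧ l u = w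

/-- linkage of two points -/
theorem FV.link {D : BD V W Q} {c : Q} (h : FV D c) {u v : V}
    (hu : Sc D c u) (hv : Sc D c v) : ∃ w, D.q u w = c ∧ D.q v w = c := by
  obtain ⟨a, ha⟩ := hu
  obtain ⟨b, hb⟩ := hv
  obtain ⟨w, -, h1, h2⟩ := h 0 u v ⟨a, D.zq a, ha⟩ ⟨b, D.zq b, hb⟩
  exact ⟨w, h1, h2⟩

theorem mem_VK_bot {D : BD V W Q} (v : V) : v ∈ VK D ⊥ := fun x hx => by
  rw [(Submodule.mem_bot _).1 hx, D.q0]

/-- linkage of two lines -/
theorem FW.link {D : BD V W Q} {c : Q} (h : FW D c) {w w1 : W}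
    (hw : ∃ v, D.q v w = c) (hw1 : ∃ v, D.q v w1 = c) : ∃ v, D.q v w = c ∧ D.q v w1 = c := by
  obtain ⟨a, ha⟩ := hw
  obtain ⟨b, hb⟩ := hw1
  obtain ⟨v, -, h1, h2⟩ := h ⊥ w w1 ⟨a, mem_VK_bot a, ha⟩ ⟨b, mem_VK_bot b, hb⟩
  exact ⟨v, h1, h2⟩

end Pool.Agent.ZPC2
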