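import Pool.Agent.ZPC2.Steps

/-!
Step 12 and the end of note 3205 (helper18), set valued, typed by helper66.
-/

set_option autoImplicit false
set_option linter.unusedSectionVars false

namespace Pool.Agent.ZPC2

/-- the statement of Steps 7 to 11 -/
def Star : Prop := ∀ (V W Q : Type) [AddCommGroup V] [Module (ZMod 2) V] [AddCommGroup W]
  [Module (ZMod 2) W] [Finite V] [Finite W]
  (D : BD V W Q) (c : Q) (l : V → W), Pol D c l → ∀ y, Sc D c y →
  Heavy D y → 4 ≤ Nat.card (Wa D y) → ∀ s, Sc D c s → s ≠ y → Sc D c (y + s)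

variable {V W Q : Type} [AddCommGroup V] [Module (ZMod 2) V] [AddCommGroup W]
  [Module (ZMod 2) W] {D : BD V W Q} {c : Q}

/-- Step 12 -/
theorem step12 [Finite W] {l : V → W} (P : Pol D c l) {x y : V} (hx : Sc D c x) (hy : Sc D c y)
    (hs : Sc D c (x + y)) (hd : ∀ w, D.q x w = D.z → D.q y w = D.z → w = 0)
    (star : ∀ s, Sc D c s → s ≠ y → Sc D c (y + s)) : Nat.card (Wa D x) ≤ 2 := by
  classical
  have h1 : D.q x (l y) = c := (P.p2 hy).2 ⟨hx, by rw [add_comm]; exact hs⟩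
  have h2 : D.q x (l (x + y)) = c := (P.p2 hs).2 ⟨hx, by
    rw [add_comm x y, aa]
    exact hy⟩
  have h3 : D.q y (l (x + y)) = c := (P.p2 hs).2 ⟨hy, by rw [aa]; exact hx⟩
  have key : ∀ w, D.q x w = D.z → w = 0 ∨ w = l y + l (x + y) := by
    intro w hw
    obtain ⟨u, hu, h4⟩ := P.p5 (v := x) (w := l y + w) (BD.r0 h1 hw)
    by_cases huy : u = y
    · left
      rw [huy] at h4
      have := congrArg (fun s => l y + s) h4
      simp only [ab, ZModModule.add_self] at this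
      exact this.symm
    · right
      have h5 : D.q x (l u) = c := by rw [h4]; exact BD.r0 h1 hw
      have h6 : D.q y (l u) = c := (P.p2 hu).2 ⟨hy, by rw [add_comm]; exact star u hu huy⟩
      have h7 : l u + l (x + y) = 0 := hd _ (BD.rc h5 h2) (BD.rc h6 h3)
      have h8 := eq_of_add h7
      rw [h4] at h8
      rw [← h8, ab]
  have h4 : (Wa D x : Set W) ⊆ ({0, l y + l (x + y)} : Set W) := by
    intro w hw
    rcases key w hw with h | h
    · exact Or.inl h
    · exact Or.inr h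
  calc Nat.card (Wa D x) = (Wa D x : Set W).ncard := rfl
    _ ≤ ({0, l y + l (x + y)} : Set W).ncard := Set.ncard_le_ncard h4
    _ ≤ 2 := (Set.ncard_insert_le _ _).trans (by rw [Set.ncard_singleton])

/-- **Theorem ZPc** of note 3205 -/
theorem zpc (hstar : Star) : ∀ (n : ℕ) (V W Q : Type) [AddCommGroup V] [Module (ZMod 2) V]
    [AddCommGroup W] [Module (ZMod 2) W] [Finite V]
    [Finite W] (D : BD V W Q) (c : Q) (x y : V), Nat.card W = n → c ≠ D.z →
    FW D c → FV D c → Heavy D y → Sc D c x → Sc D c y → Sc D c (x + y) →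
    Nat.card (Wa D x) = 2 * Nat.card (Wa D x ⊓ Wa D y : Submodule (ZMod 2) W) := by
  intro n
  induction n using Nat.strong_induction_on with
  | _ n ih =>
    intro V W Q _ _ _ _ _ _ D c x y hn hc hW hV hy hx hsy hs
    -- the induction hypothesis for the quotients
    have hIH : ∀ K : Submodule (ZMod 2) W, (∃ b ∈ K, b ≠ 0) → ∀ t y' : VK D K,
        Heavy (fq D K) y' → Sc (fq D K) c t → Sc (fq D K) c y' → Sc (fq D K) c (t + y') →
        Nat.card (Wa (fq D K) t) =
        2 * Nat.card (Wa (fq D K) t ⊓ Wa (fq D K) y' : Submodule (ZMod 2) (W ⧸ K)) := by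
      rintro K ⟨b, hb, hb0⟩ t y' h1 h2 h3 h4
      exact ih _ (hn ▸ card_quot_lt hb hb0) (VK D K) (W ⧸ K) Q (fq D K) c t y' rfl hc hW.fq hV.fq
        h1 h2 h3 h4
    by_cases hd : ∀ w, D.q x w = D.z → D.q y w = D.z → w = 0
    · have h0 : (Wa D x ⊓ Wa D y : Submodule (ZMod 2) W) = ⊥ := by
        rw [eq_bot_iff]
        rintro w ⟨h1, h2⟩
        exact (Submodule.mem_bot _).2 (hd w h1 h2)
      have h1 : Nat.card (Wa D x ⊓ Wa D y : Submodule (ZMod 2) W) = 1 := by
        rw [h0]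
        exact Nat.card_unique
      rw [h1]
      have hne : ∃ w, w ∈ Wa D x ∧ w ≠ 0 := by
        obtain ⟨w, h2, h3⟩ := (ad_iff hV).1 (⟨hsy, hs⟩ : Ad D c x y)
        refine ⟨w, h2, ?_⟩
        rintro rfl
        rw [D.q0] at h3
        exact hc h3.symm
      have hp := Module.natCard_eq_pow_finrank (K := ZMod 2) (V := Wa D x)
      rw [Nat.card_zmod] at hp
      have h2 : 1 < Nat.card (Wa D x) := by
        rw [Finite.one_lt_card_iff_nontrivial]
        obtain ⟨w, hw, hw0⟩ := hne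
        exact ⟨⟨⟨w, hw⟩, 0, fun h => hw0 (congrArg Subtype.val h)⟩⟩
      by_contra h3
      have h4 : 4 ≤ Nat.card (Wa D x) := by
        rw [hp] at h2 h3 ⊢
        rcases Nat.lt_or_ge (Module.finrank (ZMod 2) (Wa D x)) 2 with h | h
        · interval_cases hh : Module.finrank (ZMod 2) (Wa D x)
          · simp at h2
          · simp at h3
        · calc 4 = 2 ^ 2 := by norm_num
            _ ≤ _ := Nat.pow_le_pow_right (by norm_num) h
      obtain ⟨ly, hl, hE⟩ := step3 hW hV hy hx hsy hs hd h4 hIH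
      obtain ⟨l, P⟩ := exists_pol hc hW hV hy hsy hl hE
      have hx0 : x ≠ 0 := by
        rintro rfl
        obtain ⟨w, hw⟩ := hx
        rw [D.zq] at hw
        exact hc hw.symm
      have h5 := step12 P hx hsy hs hd (hstar V W Q D c l P y hsy hy (h4.trans (hy x hx0)))
      omega
    · push Not at hd
      obtain ⟨b, h1, h2, h3⟩ := hd
      have hbK : b ∈ (Wa D x ⊓ Wa D y : Submodule (ZMod 2) W) := ⟨h1, h2⟩
      have hxK : x ∈ VK D (Wa D x ⊓ Wa D y) := fun w hw => hw.1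
      have hyK : y ∈ VK D (Wa D x ⊓ Wa D y) := fun w hw => hw.2
      have h4 := hIH (Wa D x ⊓ Wa D y) ⟨b, hbK, h3⟩ ⟨x, hxK⟩ ⟨y, hyK⟩ (heavy_fq hy) (sc_fq.2 hx)
        (sc_fq.2 hsy) (sc_fq.2 hs)
      have h5 := card_Wa_fq (D := D) (K := Wa D x ⊓ Wa D y) ⟨x, hxK⟩
      have h6 := card_inf_fq (D := D) (K := Wa D x ⊓ Wa D y) ⟨x, hxK⟩ ⟨y, hyK⟩
      calc Nat.card (Wa D x) = _ := h5
        _ = 2 * (Nat.card (Wa D x ⊓ Wa D y : Submodule (ZMod 2) W) *
          Nat.card (Wa (fq D (Wa D x ⊓ Wa D y)) ⟨x, hxK⟩ ⊓ Wa (fq D (Wa D x ⊓ Wa D y)) ⟨y, hyK⟩ :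
            Submodule (ZMod 2) (W ⧸ (Wa D x ⊓ Wa D y)))) := by
          rw [h4]
          ring
        _ = _ := by rw [← h6]

end Pool.Agent.ZPC2
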