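import Pool.Agent.ZPC2.Main

/-!
Steps 7-11 of note 3205 (helper18), typed by helper98 (ZPC/P98); set valued version by helper66.
-/

set_option autoImplicit false
set_option linter.unusedSectionVars false

namespace Pool.Agent.ZPC2

open Finset

/-! ### A sum over a set stable under two translations -/

theorem sum_zero {V : Type} [AddCommGroup V] [Module (ZMod 2) V] (N : Finset V) {d1 d2 : V}
    (h1 : d1 ≠ 0) (h2 : d2 ≠ 0) (h12 : d1 ≠ d2) (t1 : ∀ u ∈ N, u + d1 ∈ N)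
    (t2 : ∀ u ∈ N, u + d2 ∈ N) : ∑ u ∈ N, u = 0 := by
  classical
  refine (Module.forall_dual_apply_eq_zero_iff (ZMod 2) _).1 fun φ => ?_
  rw [map_sum]
  have key : ∃ d : V, d ≠ 0 ∧ φ d = 0 ∧ ∀ u ∈ N, u + d ∈ N := by
    by_cases p1 : φ d1 = 0
    · exact ⟨d1, h1, p1, t1⟩
    by_cases p2 : φ d2 = 0
    · exact ⟨d2, h2, p2, t2⟩
    have e : ∀ x : ZMod 2, x ≠ 0 → x = 1 := by decide
    refine ⟨d1 + d2, fun h => h12 ?_, ?_, fun u hu => ?_⟩
    · rw [← aa d1 d2, h, zero_add]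
    · rw [map_add, e _ p1, e _ p2]; decide
    · rw [← add_assoc]; exact t2 _ (t1 u hu)
  obtain ⟨d, d0, d1, dn⟩ := key
  refine Finset.sum_involution (fun u _ => u + d) ?_ ?_ ?_ ?_
  · intro u hu
    rw [map_add, d1, add_zero, ZModModule.add_self]
  · intro u hu _ h
    exact d0 (by simpa using h)
  · intro u hu
    exact dn u hu
  · intro u hu
    exact aa u d

/-- sum of a constant over a set stable under a translation -/
theorem const_zero {V W : Type} [AddCommGroup V] [Module (ZMod 2) V] [AddCommGroup W]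
    [Module (ZMod 2) W] (N : Finset V) (x : W) {d : V} (h1 : d ≠ 0) (t1 : ∀ u ∈ N, u + d ∈ N) :
    ∑ _u ∈ N, x = 0 := by
  classical
  refine Finset.sum_involution (fun u _ => u + d) ?_ ?_ ?_ ?_
  · intro u hu
    rw [ZModModule.add_self]
  · intro u hu _ h
    exact h1 (by simpa using h)
  · intro u hu
    exact t1 u hu
  · intro u hu
    exact aa u d

/-! ### Linear spaces: a near-pencil -/

section NP

variable {X Y B : Type} [AddCommGroup X] [Module (ZMod 2) X] [AddCommGroup Y]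
  [Module (ZMod 2) Y]

/-- points and lines of a projective plane or near-pencil -/
structure Lin (g : BD X Y B) (c : B) : Prop where
  h1 : ∀ {u v w w'}, u ≠ v → g.q u w = c → g.q v w = c → g.q u w' = c → g.q v w' = c → w = w'
  h2 : ∀ {u v}, Sc g c u → Sc g c v → ∃ w, g.q u w = c ∧ g.q v w = c
  h3 : ∀ {w w'}, (∃ v, g.q v w = c) → (∃ v, g.q v w' = c) → ∃ v, g.q v w = c ∧ g.q v w' = c
  h4 : ∀ {v}, Sc g c v → ∃ w, w ≠ 0 ∧ g.q v w = g.z
  h5 : ∃ a b, a ≠ b ∧ Sc g c a ∧ Sc g c b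

variable {g : BD X Y B} {c : B}

theorem Lin.off (L : Lin g c) (w : Y) : ∃ u, Sc g c u ∧ g.q u w ≠ c := by
  by_contra hcon
  push Not at hcon
  obtain ⟨a, b, hab, ha, hb⟩ := L.h5
  obtain ⟨k, k0, hk⟩ := L.h4 ha
  obtain ⟨k', k0', hk'⟩ := L.h4 hb
  have e1 : g.q a (w + k) = c := BD.r0 (hcon a ha) hk
  have e2 : g.q b (w + k') = c := BD.r0 (hcon b hb) hk'
  obtain ⟨v, hv1, hv2⟩ := L.h3 ⟨a, e1⟩ ⟨b, e2⟩
  have hvw := hcon v ⟨_, hv1⟩
  have q1 : v = a := by
    by_contra hne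
    have := L.h1 hne hvw (hcon a ha) hv1 e1
    exact k0 (by simpa using this)
  have q2 : v = b := by
    by_contra hne
    have := L.h1 hne hvw (hcon b hb) hv2 e2
    exact k0' (by simpa using this)
  exact hab (q1.symm.trans q2)

/-- the points of a line seen from a point off it -/
theorem Lin.two (L : Lin g c) {w : Y} (hw : ∃ v, g.q v w = c) :
    ∃ a b, a ≠ b ∧ g.q a w = c ∧ g.q b w = c := by
  obtain ⟨p, hp, hpw⟩ := L.off w
  obtain ⟨k, k0, hk⟩ := L.h4 hp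
  obtain ⟨w1, hw1⟩ := hp
  have e1 : g.q p (w1 + k) = c := BD.r0 hw1 hk
  obtain ⟨a, ha, ha1⟩ := L.h3 hw ⟨p, hw1⟩
  obtain ⟨b, hb, hb1⟩ := L.h3 hw ⟨p, e1⟩
  refine ⟨a, b, ?_, ha, hb⟩
  rintro rfl
  have hne : a ≠ p := by rintro rfl; exact hpw ha
  have := L.h1 hne ha1 hw1 hb1 e1
  exact k0 (by simpa using this)

theorem Lin.three (L : Lin g c) (hA : ∀ v, Sc g c v → ∃ k1 k2, k1 ≠ 0 ∧ k2 ≠ 0 ∧ k1 ≠ k2 ∧
    g.q v k1 = g.z ∧ g.q v k2 = g.z) {w : Y} (hw : ∃ v, g.q v w = c) :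
    ∃ d1 d2, d1 ≠ 0 ∧ d2 ≠ 0 ∧ d1 ≠ d2 ∧ g.q d1 w = g.z ∧ g.q d2 w = g.z := by
  obtain ⟨p, hp, hpw⟩ := L.off w
  obtain ⟨k1, k2, k10, k20, k12, hk1, hk2⟩ := hA p hp
  obtain ⟨w1, hw1⟩ := hp
  have e1 : g.q p (w1 + k1) = c := BD.r0 hw1 hk1
  have e2 : g.q p (w1 + k2) = c := BD.r0 hw1 hk2
  obtain ⟨a0, ha, ha1⟩ := L.h3 hw ⟨p, hw1⟩
  obtain ⟨a1, hb, hb1⟩ := L.h3 hw ⟨p, e1⟩
  obtain ⟨a2, hc, hc1⟩ := L.h3 hw ⟨p, e2⟩
  have n01 : a0 ≠ a1 := by
    rintro rfl
    have hne : a0 ≠ p := by rintro rfl; exact hpw ha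
    have := L.h1 hne ha1 hw1 hb1 e1
    exact k10 (by simpa using this)
  have n02 : a0 ≠ a2 := by
    rintro rfl
    have hne : a0 ≠ p := by rintro rfl; exact hpw ha
    have := L.h1 hne ha1 hw1 hc1 e2
    exact k20 (by simpa using this)
  have n12 : a1 ≠ a2 := by
    rintro rfl
    have hne : a1 ≠ p := by rintro rfl; exact hpw hb
    have := L.h1 hne hb1 e1 hc1 e2
    exact k12 (by simpa using this)
  refine ⟨a0 + a1, a0 + a2, ?_, ?_, ?_, ?_, ?_⟩
  · intro h; apply n01; rw [← aa a0 a1, h, zero_add]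
  · intro h; apply n02; rw [← aa a0 a2, h, zero_add]
  · intro h; exact n12 (add_left_cancel h)
  · exact BD.lc ha hb
  · exact BD.lc ha hc

/-- not every point lies on four or more lines -/
theorem Lin.notA [Finite X] [Finite Y] (L : Lin g c) :
    ¬ ∀ v, Sc g c v → ∃ k1 k2, k1 ≠ 0 ∧ k2 ≠ 0 ∧ k1 ≠ k2 ∧ g.q v k1 = g.z ∧ g.q v k2 = g.z := by
  classical
  intro hA
  have := Fintype.ofFinite X
  have := Fintype.ofFinite Y
  have s0 : ∀ w : Y, ∑ u ∈ univ.filter (fun u : X => g.q u w = c), u = 0 := by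
    intro w
    by_cases hw : ∃ v, g.q v w = c
    · obtain ⟨d1, d2, h1, h2, h12, e1, e2⟩ := L.three hA hw
      refine sum_zero _ h1 h2 h12 ?_ ?_
      · intro u hu
        rw [mem_filter] at hu ⊢
        refine ⟨mem_univ _, ?_⟩
        exact BD.l0 hu.2 e1
      · intro u hu
        rw [mem_filter] at hu ⊢
        refine ⟨mem_univ _, ?_⟩
        exact BD.l0 hu.2 e2
    · rw [Finset.filter_false_of_mem, Finset.sum_empty]
      intro u _ hu
      exact hw ⟨u, hu⟩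
  have key : ∀ v, Sc g c v → ∑ u ∈ univ.filter (fun u : X => Sc g c u), u = v := by
    intro v hv
    have t0 : ∑ w ∈ univ.filter (fun w : Y => g.q v w = c),
        ∑ u ∈ univ.filter (fun u : X => g.q u w = c), u = 0 :=
      Finset.sum_eq_zero fun w _ => s0 w
    have t1 : ∑ w ∈ univ.filter (fun w : Y => g.q v w = c),
        ∑ u ∈ univ.filter (fun u : X => g.q u w = c), u =
        ∑ u : X, ∑ w ∈ univ.filter (fun w : Y => g.q v w = c), if g.q u w = c then u else 0 := by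
      rw [Finset.sum_comm]
      refine Finset.sum_congr rfl fun w _ => ?_
      rw [Finset.sum_filter]
    have t2 : ∀ u : X, (∑ w ∈ univ.filter (fun w : Y => g.q v w = c),
        if g.q u w = c then u else 0) = if Sc g c u ∧ u ≠ v then u else 0 := by
      intro u
      by_cases hu : Sc g c u
      · by_cases huv : u = v
        · subst huv
          rw [if_neg (fun h => h.2 rfl)]
          obtain ⟨k1, k2, k10, -, -, hk1, -⟩ := hA u hu
          have : ∑ w ∈ univ.filter (fun w : Y => g.q u w = c), (if g.q u w = c then u else 0) =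
              ∑ _w ∈ univ.filter (fun w : Y => g.q u w = c), u := by
            refine Finset.sum_congr rfl fun w hw => ?_
            rw [if_pos (mem_filter.1 hw).2]
          rw [this]
          refine const_zero _ _ k10 ?_
          intro w hw
          rw [mem_filter] at hw ⊢
          refine ⟨mem_univ _, ?_⟩
          exact BD.r0 hw.2 hk1
        · rw [if_pos ⟨hu, huv⟩]
          obtain ⟨w0, hw0, hw1⟩ := L.h2 hu hv
          rw [Finset.sum_eq_single_of_mem w0 (mem_filter.2 ⟨mem_univ _, hw1⟩), if_pos hw0]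
          intro w hw hne
          rw [if_neg]
          intro h
          exact hne (L.h1 huv h (mem_filter.1 hw).2 hw0 hw1)
      · rw [if_neg (fun h => hu h.1)]
        refine Finset.sum_eq_zero fun w _ => ?_
        rw [if_neg]
        intro h
        exact hu ⟨w, h⟩
    rw [t0, Finset.sum_congr rfl (fun u _ => t2 u)] at t1
    rw [← Finset.sum_filter] at t1
    have e : univ.filter (fun u : X => Sc g c u ∧ u ≠ v) =
        (univ.filter (fun u : X => Sc g c u)).erase v := by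
      ext u
      simp only [mem_filter, mem_univ, true_and, mem_erase]
      tauto
    rw [e] at t1
    rw [← Finset.add_sum_erase _ _ (mem_filter.2 ⟨mem_univ v, hv⟩), ← t1, add_zero]
  obtain ⟨a, b, hab, ha, hb⟩ := L.h5
  exact hab ((key a ha).symm.trans (key b hb))

/-- the conclusion: a near-pencil with vertex `v0` and long line `w0` -/
structure NPen (g : BD X Y B) (c : B) (v0 : X) (w0 : Y) (u1 u2 : X) :
    Prop where
  s0 : Sc g c v0
  n0 : g.q v0 w0 ≠ c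
  al : ∀ {v}, Sc g c v → v = v0 ∨ g.q v w0 = c
  ne : u1 ≠ u2
  e1 : g.q u1 w0 = c
  e2 : g.q u2 w0 = c
  ln : ∀ {u w w'}, g.q u w0 = c → g.q v0 w = c → g.q u w = c → g.q u w' = c → w' = w0 ∨ w' = w

theorem Lin.npen [Finite X] [Finite Y] (L : Lin g c) :
    ∃ v0 w0 u1 u2, NPen g c v0 w0 u1 u2 := by
  classical
  have h := L.notA
  push Not at h
  obtain ⟨u, hu, hk⟩ := h
  obtain ⟨k, k0, hk0⟩ := L.h4 hu
  have hk' : ∀ k', g.q u k' = g.z → k' = 0 ∨ k' = k := by
    intro k' h'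
    by_contra hne
    push Not at hne
    exact hk k k' k0 hne.1 hne.2.symm hk0 h'
  -- the general construction
  have gen : ∀ w1 w2 a b : _, g.q u w1 = c → g.q u w2 = c → w1 ≠ w2 →
      (∀ v, Sc g c v → g.q v w1 = c ∨ g.q v w2 = c) → a ≠ u → b ≠ u → g.q a w1 = c → g.q b w2 = c →
      (∀ a', g.q a' w1 = c → a' = u ∨ a' = a) → ∃ v0 w0 u1 u2, NPen g c v0 w0 u1 u2 := by
    intro w1 w2 a b h1 h2 h12 hall au bu ha hb honly
    have na : g.q a w2 ≠ c := fun h => h12 (L.h1 au ha h1 h h2)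
    have al : ∀ {v}, Sc g c v → v = a ∨ g.q v w2 = c := by
      intro v hv
      rcases hall v hv with h | h
      · rcases honly v h with rfl | rfl
        · exact Or.inr h2
        · exact Or.inl rfl
      · exact Or.inr h
    refine ⟨a, w2, u, b, ⟨w1, ha⟩, na, al, bu.symm, h2, hb, ?_⟩
    intro x w w' hx haw hxw hxw'
    by_contra hne
    push Not at hne
    -- another point of the long line
    obtain ⟨x', hx', hxx⟩ : ∃ x', g.q x' w2 = c ∧ x' ≠ x := by
      by_cases hxu : x = u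
      · exact ⟨b, hb, fun h => bu (h.trans hxu)⟩
      · exact ⟨u, h2, fun h => hxu h.symm⟩
    obtain ⟨w'', haw'', hxw''⟩ := L.h2 (u := a) (v := x') ⟨w1, ha⟩ ⟨w2, hx'⟩
    have n2 : w'' ≠ w2 := by rintro rfl; exact na haw''
    obtain ⟨p, hp1, hp2⟩ := L.h3 (w := w') (w' := w'') ⟨x, hxw'⟩ ⟨a, haw''⟩
    have xa : x ≠ a := by rintro rfl; exact na hx
    rcases al (v := p) ⟨w', hp1⟩ with rfl | hpw
    · exact hne.2 (L.h1 xa hxw' hp1 hxw haw)
    · have : p = x' := by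
        by_contra hpx
        exact n2 (L.h1 hpx hp2 hxw'' hpw hx')
      subst this
      exact hne.1 (L.h1 hxx hp1 hxw' hpw hx)
  obtain ⟨w1, hw1⟩ := hu
  have hw2 : g.q u (w1 + k) = c := BD.r0 hw1 hk0
  have h12 : w1 ≠ w1 + k := fun h => k0 (by simpa using h)
  have hall : ∀ v, Sc g c v → g.q v w1 = c ∨ g.q v (w1 + k) = c := by
    intro v hv
    obtain ⟨w, hw, hvw⟩ := L.h2 (u := u) (v := v) ⟨w1, hw1⟩ hv
    rcases hk' (w1 + w) (BD.rc hw1 hw) with h | h
    · left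
      have : w1 = w := by rw [← aa w1 w, h, zero_add]
      rw [this]; exact hvw
    · right
      have : w1 + k = w := by rw [← h]; exact ab w1 w
      rw [this]; exact hvw
  obtain ⟨a, ha, hau⟩ : ∃ a, g.q a w1 = c ∧ a ≠ u := by
    obtain ⟨x, y, hxy, hx, hy⟩ := L.two ⟨u, hw1⟩
    by_cases h : x = u
    · exact ⟨y, hy, fun h' => hxy (h.trans h'.symm)⟩
    · exact ⟨x, hx, h⟩
  obtain ⟨b, hb, hbu⟩ : ∃ b, g.q b (w1 + k) = c ∧ b ≠ u := by
    obtain ⟨x, y, hxy, hx, hy⟩ := L.two ⟨u, hw2⟩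
    by_cases h : x = u
    · exact ⟨y, hy, fun h' => hxy (h.trans h'.symm)⟩
    · exact ⟨x, hx, h⟩
  set w2 := w1 + k with hw2def
  by_cases hA : ∀ a', g.q a' w1 = c → a' = u ∨ a' = a
  · exact gen w1 w2 a b hw1 hw2 h12 hall hau hbu ha hb hA
  by_cases hB : ∀ b', g.q b' w2 = c → b' = u ∨ b' = b
  · exact gen w2 w1 b a hw2 hw1 h12.symm (fun v hv => (hall v hv).symm) hbu hau hb ha hB
  exfalso
  push Not at hA hB
  obtain ⟨a', ha', hau', haa⟩ := hA
  obtain ⟨b', hb', hbu', hbb⟩ := hB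
  obtain ⟨w3, ha3, hb3⟩ := L.h2 (u := a) (v := b) ⟨_, ha⟩ ⟨_, hb⟩
  obtain ⟨w4, ha4, hb4⟩ := L.h2 (u := a') (v := b') ⟨_, ha'⟩ ⟨_, hb'⟩
  have n13 : w1 ≠ w3 := by
    rintro rfl
    exact h12 (L.h1 hbu hb3 hw1 hb hw2)
  have n14 : w1 ≠ w4 := by
    rintro rfl
    exact h12 (L.h1 hbu' hb4 hw1 hb' hw2)
  have n23 : w2 ≠ w3 := by
    intro h
    rw [← h] at ha3
    exact h12 (L.h1 hau ha hw1 ha3 hw2)
  have n24 : w2 ≠ w4 := by
    intro h
    rw [← h] at ha4
    exact h12 (L.h1 hau' ha' hw1 ha4 hw2)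
  obtain ⟨p, hp3, hp4⟩ := L.h3 (w := w3) (w' := w4) ⟨a, ha3⟩ ⟨a', ha4⟩
  rcases hall p ⟨_, hp3⟩ with hp | hp
  · have q1 : p = a := by
      by_contra hne
      exact n13 (L.h1 hne hp ha hp3 ha3)
    have q2 : p = a' := by
      by_contra hne
      exact n14 (L.h1 hne hp ha' hp4 ha4)
    exact haa (q2.symm.trans q1)
  · have q1 : p = b := by
      by_contra hne
      exact n23 (L.h1 hne hp hb hp3 hb3)
    have q2 : p = b' := by
      by_contra hne
      exact n24 (L.h1 hne hp hb' hp4 hb4)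
    exact hbb (q2.symm.trans q1)

end NP

/-! ### Elementary facts about `Pol` -/

section PolBasic

variable {V W B : Type} [AddCommGroup V] [Module (ZMod 2) V] [AddCommGroup W]
  [Module (ZMod 2) W]
  {D : BD V W B} {c : B} {l : V → W}

/-- adjacency -/
theorem Pol.ad (P : Pol D c l) {u v : V} (hu : Sc D c u) (hv : Sc D c v) :
    D.q v (l u) = c ↔ Sc D c (u + v) := by
  rw [P.p2 hu]
  exact ⟨fun h => h.2, fun h => ⟨hv, h⟩⟩

theorem Pol.sy (P : Pol D c l) {u v : V} (hu : Sc D c u) (hv : Sc D c v)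
    (h : D.q v (l u) = c) : D.q u (l v) = c := by
  rw [P.ad hv hu, add_comm]
  exact (P.ad hu hv).1 h

theorem Pol.sc0 (P : Pol D c l) {v : V} (hv : Sc D c v) : v ≠ 0 := by
  rintro rfl
  obtain ⟨w, hw⟩ := hv
  rw [D.zq] at hw
  exact P.c0 hw.symm

/-- adjacent points have no common annihilator -/
theorem Pol.a1 (P : Pol D c l) {u v : V} (hu : Sc D c u) (h : D.q v (l u) = c)
    {w : W} (h1 : D.q u w = D.z) (h2 : D.q v w = D.z) : w = 0 := by
  have e1 : D.q u (l u + w) = D.z := BD.r0 (P.p1 hu) h1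
  have e2 : D.q v (l u + w) = c := BD.r0 h h2
  have := P.p3 hu e1 e2
  simpa using this

/-- `l` is additive on edges -/
theorem Pol.a2 (P : Pol D c l) {u v : V} (hu : Sc D c u) (hv : Sc D c v)
    (h : D.q v (l u) = c) : l (u + v) = l u + l v := by
  have h' := P.sy hu hv h
  have hs : Sc D c (u + v) := (P.ad hu hv).1 h
  symm
  refine P.p3 (v := u) hs ?_ ?_
  · exact BD.rc (BD.l0' (P.p1 hu) h) (BD.l0 h' (P.p1 hv))
  · exact BD.r0' (P.p1 hu) h'

/-- (6e) -/
theorem Pol.a3 (P : Pol D c l) {u v : V} (hu : Sc D c u) (hv : Sc D c v) (huv : u ≠ v) :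
    D.q u (l v) ≠ D.z := by
  intro h0
  obtain ⟨w, hw1, hw2⟩ := P.fv.link hu hv
  obtain ⟨z, hz, rfl⟩ := P.p5 hw1
  have hzv := (P.ad hz hv).1 hw2
  have e1 := P.a2 hz hv hw2
  have e2 : D.q u (l (z + v)) = c := by rw [e1]; exact BD.r0 hw1 h0
  have e3 := P.sy hzv hu e2
  have e4 := P.sy hz hu hw1
  have e5 := P.sy hz hv hw2
  have e6 : D.q v (l u) = D.z := by
    exact BD.ld e3 e4
  have e7 : l u + l v = 0 := by
    refine P.a1 (u := z) (v := v) hz hw2 ?_ ?_
    · exact BD.rc e4 e5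
    · exact BD.r0 e6 (P.p1 hv)
  apply huv
  apply P.p4 hu hv
  rw [← aa (l u) (l v), e7, zero_add]

/-- every point has a neighbour -/
theorem Pol.nb (P : Pol D c l) {u : V} (hu : Sc D c u) : ∃ v, Sc D c v ∧ D.q v (l u) = c := by
  obtain ⟨w, hw⟩ := hu
  obtain ⟨v, hv, rfl⟩ := P.p5 hw
  exact ⟨v, hv, P.sy hv ⟨_, hw⟩ hw⟩

end PolBasic

/-! ### Steps 8 and 9 -/

section Near

variable {V W B : Type} [AddCommGroup V] [Module (ZMod 2) V] [AddCommGroup W]
  [Module (ZMod 2) W]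

/-- `K` is the common annihilator of any two of its points -/
structure Mx (D : BD V W B) (c : B) (K : Submodule (ZMod 2) W) : Prop where
  k0 : ∃ k ∈ K, k ≠ 0
  km : ∀ {u v}, Sc D c u → Sc D c v → u ≠ v → u ∈ VK D K → v ∈ VK D K →
    ∀ {w}, D.q u w = D.z → D.q v w = D.z → w ∈ K
  ab : ∃ a b, a ≠ b ∧ Sc D c a ∧ Sc D c b ∧ a ∈ VK D K ∧ b ∈ VK D K

/-- the near-pencil of the points of `V_K` -/
structure Near (D : BD V W B) (c : B) (K : Submodule (ZMod 2) W)
    (v0 : V) (w0 : W) (u1 u2 : V) : Prop where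
  k0 : v0 ∈ VK D K
  k1 : u1 ∈ VK D K
  k2 : u2 ∈ VK D K
  s0 : Sc D c v0
  n0 : D.q v0 w0 ≠ c
  al : ∀ {v}, v ∈ VK D K → Sc D c v → v = v0 ∨ D.q v w0 = c
  ne : u1 ≠ u2
  e1 : D.q u1 w0 = c
  e2 : D.q u2 w0 = c
  ln : ∀ {u w w'}, u ∈ VK D K → D.q u w0 = c → D.q v0 w = c → D.q u w = c → D.q u w' = c →
    w' + w0 ∈ K ∨ w' + w ∈ K

variable {D : BD V W B} {c : B} {l : V → W} {K : Submodule (ZMod 2) W}

/-- adding an element of `K` changes nothing on `V_K` -/
theorem vk_add {v : V} (hv : v ∈ VK D K) {w w' : W} (h : w + w' ∈ K) : D.q v w = D.q v w' := by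
  have := hv _ h
  exact (D.qr v w w').2 this

/-- the restriction of a set valued map to two subspaces -/
def restr (D : BD V W B) (A : Submodule (ZMod 2) V) (K' : Submodule (ZMod 2) W) :
    BD A K' B where
  q := fun v w => D.q v w
  z := D.z
  qr := fun v w w1 => D.qr v w w1
  ql := fun v v1 w => D.ql v v1 w

theorem Pol.near [Finite V] [Finite W] (P : Pol D c l) (M : Mx D c K) :
    ∃ v0 w0 u1 u2, Near D c K v0 w0 u1 u2 := by
  obtain ⟨K', hK⟩ := Submodule.exists_isCompl K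
  have dec : ∀ w : W, ∃ k ∈ K, ∃ k' ∈ K', w = k + k' := by
    intro w
    have : w ∈ K ⊔ K' := by rw [hK.sup_eq_top]; exact Submodule.mem_top
    obtain ⟨k, hk, k', hk', e⟩ := Submodule.mem_sup.1 this
    exact ⟨k, hk, k', hk', e.symm⟩
  have dis : ∀ w : W, w ∈ K → w ∈ K' → w = 0 := fun w h1 h2 => by
    have : w ∈ K ⊓ K' := ⟨h1, h2⟩
    rw [hK.inf_eq_bot] at this
    exact (Submodule.mem_bot _).1 this
  have red : ∀ {v : V}, v ∈ VK D K → ∀ {k k' : W}, k ∈ K → D.q v (k + k') = D.q v k' := by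
    intro v hv k k' hk
    exact BD.r0' (hv k hk) rfl
  let g : BD (VK D K) K' B := restr D (VK D K) K'
  have hg : ∀ (v : VK D K) (w : K'), g.q v w = D.q v w := fun v w => rfl
  have sc1 : ∀ v : VK D K, Sc g c v → Sc D c v := fun v ⟨w, hw⟩ => ⟨w, by rw [← hg]; exact hw⟩
  have sc2 : ∀ v : VK D K, Sc D c v → Sc g c v := by
    rintro v ⟨w, hw⟩
    obtain ⟨k, hk, k', hk', rfl⟩ := dec w
    refine ⟨⟨k', hk'⟩, ?_⟩
    rw [hg, ← hw, red v.2 hk]
  obtain ⟨a, b, hab, ha, hb, hak, hbk⟩ := M.ab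
  have L : Lin g c := by
    refine ⟨?_, ?_, ?_, ?_, ?_⟩
    · intro u v w w' huv h1 h2 h3 h4
      rw [hg] at h1 h2 h3 h4
      have hne : (u : V) ≠ v := fun h => huv (Subtype.ext h)
      have hkk : (w : W) + w' ∈ K := by
        refine M.km ⟨_, h1⟩ ⟨_, h2⟩ hne u.2 v.2 ?_ ?_
        · exact BD.rc h1 h3
        · exact BD.rc h2 h4
      have h0 := dis _ hkk (K'.add_mem w.2 w'.2)
      apply Subtype.ext
      rw [← aa (w : W) w', h0, zero_add]
    · intro u v hu hv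
      obtain ⟨w, hw1, hw2⟩ := P.fv.link (sc1 u hu) (sc1 v hv)
      obtain ⟨k, hk, k', hk', rfl⟩ := dec w
      refine ⟨⟨k', hk'⟩, ?_, ?_⟩
      · rw [hg, ← hw1, red u.2 hk]
      · rw [hg, ← hw2, red v.2 hk]
    · rintro w w' ⟨v, hv⟩ ⟨v', hv'⟩
      obtain ⟨x, hx, h1, h2⟩ := P.fw K w w' ⟨v, v.2, by rw [← hg]; exact hv⟩
        ⟨v', v'.2, by rw [← hg]; exact hv'⟩
      exact ⟨⟨x, hx⟩, h1, h2⟩
    · intro v hv
      have hv' := sc1 v hv
      obtain ⟨u, hu, huk, huv⟩ : ∃ u, Sc D c u ∧ u ∈ VK D K ∧ u ≠ (v : V) := by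
        by_cases h : a = v
        · exact ⟨b, hb, hbk, fun h' => hab (h.trans h'.symm)⟩
        · exact ⟨a, ha, hak, h⟩
      obtain ⟨k, hk, k', hk', e⟩ := dec (l v)
      refine ⟨⟨k', hk'⟩, ?_, ?_⟩
      · intro h0
        have h0' : k' = 0 := congrArg Subtype.val h0
        rw [h0', add_zero] at e
        apply P.a3 hu hv' huv
        rw [e]
        exact huk k hk
      · rw [hg]
        show D.q v k' = D.z
        rw [← red v.2 hk, ← e]
        exact P.p1 hv'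
    · exact ⟨⟨a, hak⟩, ⟨b, hbk⟩, fun h => hab (congrArg Subtype.val h), sc2 _ ha, sc2 _ hb⟩
  obtain ⟨v0, w0, u1, u2, N⟩ := L.npen
  refine ⟨v0, w0, u1, u2, v0.2, u1.2, u2.2, sc1 _ N.s0, N.n0, ?_,
    fun h => N.ne (Subtype.ext h), N.e1, N.e2, ?_⟩
  · intro v hv hs
    rcases N.al (v := ⟨v, hv⟩) (sc2 ⟨v, hv⟩ hs) with h | h
    · left; rw [← h]
    · right; exact h
  · intro u w w' hu hu0 h0 h1 h2
    obtain ⟨k, hk, k', hk', rfl⟩ := dec w
    obtain ⟨m, hm, m', hm', rfl⟩ := dec w'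
    have q := N.ln (u := ⟨u, hu⟩) (w := ⟨k', hk'⟩) (w' := ⟨m', hm'⟩) hu0
      (by rw [hg, ← h0, red v0.2 hk]) (by rw [hg, ← h1]; exact (red hu hk).symm)
      (by rw [hg, ← h2]; exact (red hu hm).symm)
    rcases q with q | q
    · left
      have q' : m' = w0 := congrArg Subtype.val q
      rw [q', aa]; exact hm
    · right
      have q' : m' = k' := congrArg Subtype.val q
      rw [q', show m + k' + (k + k') = m + k + (k' + k') by abel, ZModModule.add_self, add_zero]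
      exact K.add_mem hm hk

/-- (9a) -/
theorem Near.a9 (P : Pol D c l) {v0 w0 u1 u2} (N : Near D c K v0 w0 u1 u2) {u : V}
    (hu : u ∈ VK D K) (h : D.q u w0 = c) : D.q v0 (w0 + l u) = c := by
  have hs : Sc D c u := ⟨_, h⟩
  have hne : v0 ≠ u := by rintro rfl; exact N.n0 h
  obtain ⟨w, h1, h2⟩ := P.fv.link N.s0 hs
  have e : D.q u (w0 + l u) = c := BD.r0 h (P.p1 hs)
  rcases N.ln hu h h1 h2 e with q | q
  · exfalso
    rw [show w0 + l u + w0 = l u + (w0 + w0) by abel, ZModModule.add_self, add_zero] at q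
    exact P.a3 N.s0 hs hne (N.k0 _ q)
  · rw [vk_add N.k0 q]; exact h1

/-- (9b) -/
theorem Near.b9 (P : Pol D c l) {v0 w0 u1 u2} (N : Near D c K v0 w0 u1 u2) {u : V}
    (hu : u ∈ VK D K) (h : D.q u w0 = c) {w : W} (hw : D.q u w = c) :
    w + w0 ∈ K ∨ w + (w0 + l u) ∈ K := by
  have hs : Sc D c u := ⟨_, h⟩
  have e : D.q u (w0 + l u) = c := BD.r0 h (P.p1 hs)
  exact N.ln hu h (N.a9 P hu h) e hw

/-- every line through `v0` meets the long line -/
theorem Near.mt (P : Pol D c l) {v0 w0 u1 u2} (N : Near D c K v0 w0 u1 u2) {w : W}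
    (hw : D.q v0 w = c) : ∃ u ∈ VK D K, D.q u w0 = c ∧ D.q u w = c ∧ w + (w0 + l u) ∈ K := by
  obtain ⟨u, hu, h1, h2⟩ := P.fw K w w0 ⟨v0, N.k0, hw⟩ ⟨u1, N.k1, N.e1⟩
  refine ⟨u, hu, h2, h1, ?_⟩
  rcases N.b9 P hu h2 h1 with q | q
  · exfalso
    apply N.n0
    rw [← vk_add N.k0 q]; exact hw
  · exact q

/-- the decomposition of `v0` -/
theorem Near.e9 (P : Pol D c l) (M : Mx D c K) {v0 w0 u1 u2} (N : Near D c K v0 w0 u1 u2) :
    ∃ e, e ≠ 0 ∧ e ∈ VK D K ∧ ∀ u ∈ VK D K, D.q u w0 = c → D.q e (l u) = D.z := by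
  -- a point on the line `w0`
  obtain ⟨x, hx, hxw⟩ := P.p5 N.e1
  -- `F` = the points `x` with `l x` in `w0 + K`
  have F1 : ∀ {p u : V}, l p + w0 ∈ K → u ∈ VK D K → D.q u w0 = c → D.q u (l p) = c := by
    intro p u hp hu h
    rw [vk_add hu hp]; exact h
  have s1 : Sc D c u1 := ⟨_, N.e1⟩
  have hxx : l x + w0 ∈ K := by rw [hxw, ZModModule.add_self]; exact K.zero_mem
  have e1 : D.q u1 (l x) = c := F1 hxx N.k1 N.e1
  -- `z = x + u1` is a neighbour of `v0`
  have hz : Sc D c (x + u1) := (P.ad hx s1).1 e1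
  have lz : l (x + u1) = l x + l u1 := P.a2 hx s1 e1
  have hzv : D.q v0 (l (x + u1)) = c := by
    rw [lz, hxw]; exact N.a9 P N.k1 N.e1
  have hz' : Sc D c (x + u1 + v0) := (P.ad hz N.s0).1 hzv
  have lz' : l (x + u1 + v0) = l (x + u1) + l v0 := P.a2 hz N.s0 hzv
  have hzv' : D.q v0 (l (x + u1 + v0)) = c := by
    rw [lz']; exact BD.r0 hzv (P.p1 N.s0)
  obtain ⟨u, hu, hu0, hul, huk⟩ := N.mt P hzv'
  have su : Sc D c u := ⟨_, hu0⟩
  have lz'' : l (x + u1 + v0 + u) = l (x + u1 + v0) + l u := P.a2 hz' su hul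
  have hF : l (x + u1 + v0 + u) + w0 ∈ K := by
    rw [lz'', show l (x + u1 + v0) + l u + w0 = l (x + u1 + v0) + (w0 + l u) by abel]
    exact huk
  refine ⟨v0 + (u1 + u), ?_, ?_, ?_⟩
  · intro h0
    have hvu : v0 + u1 = u := by
      rw [← aa (v0 + u1) u, add_assoc v0 u1 u, h0, zero_add]
    have hadj : D.q u1 (l v0) = c := by
      rw [P.ad N.s0 s1, hvu]; exact su
    obtain ⟨k, hk, hk0⟩ := M.k0
    exact hk0 (P.a1 N.s0 hadj (N.k0 k hk) (N.k1 k hk))
  · exact (VK D K).add_mem N.k0 ((VK D K).add_mem N.k1 hu)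
  · intro u' hu' h'
    have su' : Sc D c u' := ⟨_, h'⟩
    have q1 : D.q x (l u') = c := P.sy hx su' (F1 hxx hu' h')
    have hs4 : Sc D c (x + u1 + v0 + u) := (P.ad hz' su).1 hul
    have q2 : D.q (x + u1 + v0 + u) (l u') = c := P.sy hs4 su' (F1 hF hu' h')
    have : v0 + (u1 + u) = x + (x + u1 + v0 + u) := by
      rw [show x + (x + u1 + v0 + u) = x + x + (v0 + (u1 + u)) by abel, ZModModule.add_self,
        zero_add]
    rw [this]; exact BD.lc q1 q2

/-- (9*) -/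
theorem Pol.nostar [Finite V] [Finite W] (P : Pol D c l) (M : Mx D c K) {m : V}
    (hm : m ∈ VK D K) (hs : Sc D c m) : ¬ Heavy D m := by
  intro hh
  obtain ⟨v0, w0, u1, u2, N⟩ := P.near M
  obtain ⟨e, e0, ek, ez⟩ := N.e9 P M
  have s1 : Sc D c u1 := ⟨_, N.e1⟩
  have hne : v0 ≠ u1 := by rintro rfl; exact N.n0 N.e1
  have lt : Wa D v0 < Wa D e := by
    refine SetLike.lt_iff_le_and_exists.2 ⟨?_, l u1, ?_, ?_⟩
    · intro w hw
      rw [mem_Wa] at hw ⊢
      have h9 := N.a9 P N.k1 N.e1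
      have h10 : D.q v0 (w0 + l u1 + w) = c := BD.r0 h9 hw
      obtain ⟨u, hu, hu0, -, huk⟩ := N.mt P h10
      have := ek _ huk
      have q1 := ez u1 N.k1 N.e1
      have q2 := ez u hu hu0
      rw [show w0 + l u1 + w + (w0 + l u) = w + (l u1 + l u) + (w0 + w0) by abel,
        ZModModule.add_self, add_zero] at this
      exact BD.re this (BD.r0 q1 q2)
    · rw [mem_Wa]; exact ez u1 N.k1 N.e1
    · rw [mem_Wa]; exact P.a3 N.s0 s1 hne
  have c1 : Nat.card (Wa D v0) < Nat.card (Wa D e) := by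
    have : Set.ncard (Wa D v0 : Set W) < Set.ncard (Wa D e : Set W) :=
      Set.ncard_lt_ncard lt (Set.toFinite _)
    exact this
  have c2 : Nat.card (Wa D m) ≤ Nat.card (Wa D v0) := by
    rcases N.al hm hs with rfl | h
    · exact le_rfl
    · classical
      have hv0m : v0 ≠ m := by rintro rfl; exact N.n0 h
      have lv0 : l v0 ∉ K := by
        intro hk
        exact P.a3 hs N.s0 hv0m.symm (hm _ hk)
      have cls : ∀ w, D.q m w = D.z → w ∉ K → w + l m ∈ K := by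
        intro w hw hwk
        rcases N.b9 P hm h (w := w0 + w) (BD.r0 h hw) with q | q
        · exfalso
          apply hwk
          rw [show w0 + w + w0 = w + (w0 + w0) by abel, ZModModule.add_self, add_zero] at q
          exact q
        · rw [show w0 + w + (w0 + l m) = w + l m + (w0 + w0) by abel, ZModModule.add_self,
            add_zero] at q
          exact q
      let φ : Wa D m → Wa D v0 := fun w => if h : (w : W) ∈ K then
        ⟨w, by rw [mem_Wa]; exact N.k0 _ h⟩ else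
        ⟨w + l m + l v0, mem_Wa.2 (
          BD.r0 (N.k0 _ (cls w (mem_Wa.1 w.2) h)) (P.p1 N.s0))⟩
      refine Nat.card_le_card_of_injective φ ?_
      intro w w' hww
      have hww' := congrArg Subtype.val hww
      apply Subtype.ext
      by_cases h1 : (w : W) ∈ K
      · by_cases h2 : (w' : W) ∈ K
        · simp only [φ, dif_pos h1, dif_pos h2] at hww'
          exact hww'
        · exfalso
          simp only [φ, dif_pos h1, dif_neg h2] at hww'
          apply lv0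
          have : l v0 = (w : W) + (w' + l m) := by
            rw [hww', show (w' : W) + l m + l v0 + (w' + l m) = l v0 + ((w' + l m) + (w' + l m))
              by abel, ZModModule.add_self, add_zero]
          rw [this]
          exact K.add_mem h1 (cls _ (mem_Wa.1 w'.2) h2)
      · by_cases h2 : (w' : W) ∈ K
        · exfalso
          simp only [φ, dif_neg h1, dif_pos h2] at hww'
          apply lv0
          have : l v0 = (w' : W) + (w + l m) := by
            rw [← hww', show (w : W) + l m + l v0 + (w + l m) = l v0 + ((w + l m) + (w + l m))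
              by abel, ZModModule.add_self, add_zero]
          rw [this]
          exact K.add_mem h2 (cls _ (mem_Wa.1 w.2) h1)
        · simp only [φ, dif_neg h1, dif_neg h2] at hww'
          exact add_right_cancel (add_right_cancel hww')
  have := hh e e0
  omega

end Near

/-! ### Step 10 -/

section S10

variable {V W B : Type} [AddCommGroup V] [Module (ZMod 2) V] [AddCommGroup W]
  [Module (ZMod 2) W]
  {D : BD V W B} {c : B} {l : V → W}

theorem add_mem_Wa {u : V} {w w' : W} (h : D.q u w = c) (h' : D.q u w' = c) : w + w' ∈ Wa D u := by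
  exact mem_Wa.2 (BD.rc h h')

/-- a heavy point has no common annihilator with another point -/
theorem Pol.s10 [Finite V] [Finite W] (P : Pol D c l) {y : V} (hy : Sc D c y) (hh : Heavy D y)
    {u : V} (hu : Sc D c u) (huy : u ≠ y) {w : W} (h1 : D.q u w = D.z) (h2 : D.q y w = D.z) : w = 0 := by
  by_contra hw
  -- `K`
  let T : Set V := {x | Sc D c x ∧ x ≠ y ∧ ∃ k, k ≠ 0 ∧ D.q x k = D.z ∧ D.q y k = D.z}
  obtain ⟨a, ha⟩ := Set.Finite.exists_maximalFor (fun x => Wa D x ⊓ Wa D y) T (Set.toFinite _)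
    ⟨u, hu, huy, w, hw, h1, h2⟩
  obtain ⟨⟨sa, hay, k, hk, hk1, hk2⟩, hmax⟩ := ha
  -- `K1`
  let T2 : Set (V × V) := {p | Sc D c p.1 ∧ Sc D c p.2 ∧ p.1 ≠ p.2 ∧
    Wa D a ⊓ Wa D y ≤ Wa D p.1 ⊓ Wa D p.2}
  obtain ⟨p, hp⟩ := Set.Finite.exists_maximalFor (fun p : V × V => Wa D p.1 ⊓ Wa D p.2) T2
    (Set.toFinite _) ⟨(a, y), sa, hy, hay, le_rfl⟩
  obtain ⟨⟨sp1, sp2, hpne, hle⟩, hmax2⟩ := hp
  have hkK : k ∈ Wa D a ⊓ Wa D y := ⟨mem_Wa.2 hk1, mem_Wa.2 hk2⟩
  have M : Mx D c (Wa D p.1 ⊓ Wa D p.2) := by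
    refine ⟨⟨k, hle hkK, hk⟩, ?_, ⟨p.1, p.2, hpne, sp1, sp2, ?_, ?_⟩⟩
    · intro x x' hx hx' hne hxk hxk' w hw1 hw2
      have h3 : Wa D p.1 ⊓ Wa D p.2 ≤ Wa D x ⊓ Wa D x' := fun t ht =>
        ⟨mem_Wa.2 (hxk t ht), mem_Wa.2 (hxk' t ht)⟩
      exact hmax2 (j := (x, x')) ⟨hx, hx', hne, hle.trans h3⟩ h3 ⟨mem_Wa.2 hw1, mem_Wa.2 hw2⟩
    · intro t ht; exact mem_Wa.1 ht.1
    · intro t ht; exact mem_Wa.1 ht.2
  set K1 := Wa D p.1 ⊓ Wa D p.2 with hK1
  have kmy : ∀ {m : V}, m ∈ VK D K1 → Sc D c m → ∀ {t : W}, D.q m t = D.z → D.q y t = D.z → t ∈ K1 := by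
    intro m hm hs t ht1 ht2
    have hmy : m ≠ y := by
      rintro rfl
      exact P.nostar M hm hs hh
    have h3 : Wa D a ⊓ Wa D y ≤ Wa D m ⊓ Wa D y := fun t ht =>
      ⟨mem_Wa.2 (hm t (hle ht)), ht.2⟩
    have h4 := hmax (j := m) ⟨hs, hmy, k, hk, hm k (hle hkK), hk2⟩ h3
    exact hle (h4 ⟨mem_Wa.2 ht1, mem_Wa.2 ht2⟩)
  obtain ⟨v0, w0, u1, u2, N⟩ := P.near M
  obtain ⟨z, hz1, hz2⟩ := P.fv.link hy N.s0
  obtain ⟨x, hx, hx0, hxz, -⟩ := N.mt P hz2
  have sx : Sc D c x := ⟨_, hx0⟩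
  obtain ⟨x', hx', hx0', hne⟩ : ∃ x' ∈ VK D K1, D.q x' w0 = c ∧ x ≠ x' := by
    by_cases h : x = u1
    · exact ⟨u2, N.k2, N.e2, fun h' => N.ne (h.symm.trans h')⟩
    · exact ⟨u1, N.k1, N.e1, h⟩
  have sx' : Sc D c x' := ⟨_, hx0'⟩
  obtain ⟨w1, hw1, hw2⟩ := P.fv.link hy sx'
  have hyy : D.q y (w1 + z) = D.z := BD.rc hw1 hz1
  rcases N.b9 P hx' hx0' hw2 with q | q
  · have e1 : D.q x w1 = c := by rw [vk_add hx q]; exact hx0
    have e2 : w1 + z ∈ K1 := kmy hx sx (BD.rc e1 hxz) hyy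
    have e3 : D.q v0 w1 = c := by rw [vk_add N.k0 e2]; exact hz2
    apply N.n0
    rw [← vk_add N.k0 q]; exact e3
  · have e1 : D.q v0 w1 = c := by rw [vk_add N.k0 q]; exact N.a9 P hx' hx0'
    have e2 : w1 + z ∈ K1 := kmy N.k0 N.s0 (BD.rc e1 hz2) hyy
    have e3 : D.q x w1 = c := by rw [vk_add hx e2]; exact hxz
    have e4 : w1 + w0 ∈ K1 := M.km sx sx' hne hx hx'
      (BD.rc e3 hx0)
      (BD.rc hw2 hx0')
    apply N.n0
    rw [← vk_add N.k0 e4]; exact e1

end S10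

/-! ### Step 11 -/

section S11

open Classical in
/-- the neighbours of `u` -/
noncomputable def NF {V W B : Type} [AddCommGroup V] [Module (ZMod 2) V] [AddCommGroup W]
    [Module (ZMod 2) W] [Fintype V]
    (D : BD V W B) (c : B) (l : V → W) (u : V) : Finset V :=
  univ.filter (fun z : V => D.q z (l u) = c)

variable {V W B : Type} [AddCommGroup V] [Module (ZMod 2) V] [AddCommGroup W]
  [Module (ZMod 2) W] [Fintype V]
  {D : BD V W B} {c : B} {l : V → W}

theorem mem_NF {u z : V} : z ∈ NF D c l u ↔ D.q z (l u) = c := by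
  classical
  rw [NF, mem_filter]
  exact ⟨fun h => h.2, fun h => ⟨mem_univ _, h⟩⟩

theorem sc_of_NF {u z : V} (h : z ∈ NF D c l u) : Sc D c z := ⟨_, mem_NF.1 h⟩

theorem Pol.cardNF [Finite W] (P : Pol D c l) {u : V} (hu : Sc D c u) :
    (NF D c l u).card = Nat.card (Wa D u) := by
  classical
  obtain ⟨w0, hw0⟩ := id hu
  have h1 : (NF D c l u).card = Nat.card {z // z ∈ NF D c l u} := by
    rw [Nat.card_eq_fintype_card, Fintype.card_coe]
  rw [h1]
  refine Nat.card_eq_of_bijective (fun z : {z // z ∈ NF D c l u} =>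
    (⟨l z.1 + w0, add_mem_Wa (P.sy hu (sc_of_NF z.2) (mem_NF.1 z.2)) hw0⟩ : Wa D u)) ⟨?_, ?_⟩
  · intro z z' h
    have h' := congrArg Subtype.val h
    exact Subtype.ext (P.p4 (sc_of_NF z.2) (sc_of_NF z'.2) (add_right_cancel h'))
  · rintro ⟨w, hw⟩
    have e : D.q u (w + w0) = c := BD.r0' (mem_Wa.1 hw) hw0
    obtain ⟨z, hz, hzw⟩ := P.p5 e
    have e' : D.q u (l z) = c := by rw [hzw]; exact e
    refine ⟨⟨z, mem_NF.2 (P.sy hz hu e')⟩, ?_⟩
    apply Subtype.ext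
    show l z + w0 = w
    rw [hzw, aa]

/-- a common neighbour -/
theorem Pol.cn (P : Pol D c l) {u v : V} (hu : Sc D c u) (hv : Sc D c v) :
    ∃ z, z ∈ NF D c l u ∧ z ∈ NF D c l v := by
  obtain ⟨w, h1, h2⟩ := P.fv.link hu hv
  obtain ⟨z, hz, rfl⟩ := P.p5 h1
  exact ⟨z, mem_NF.2 (P.sy hz hu h1), mem_NF.2 (P.sy hz hv h2)⟩

/-- the common neighbour with a heavy point is unique -/
theorem Pol.cnu [Finite W] (P : Pol D c l) {y : V} (hy : Sc D c y) (hh : Heavy D y)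
    {u : V} (hu : Sc D c u) (huy : u ≠ y) {z z' : V} (h1 : z ∈ NF D c l y)
    (h2 : z ∈ NF D c l u) (h1' : z' ∈ NF D c l y) (h2' : z' ∈ NF D c l u) : z = z' := by
  have hz := sc_of_NF h1
  have hz' := sc_of_NF h1'
  apply P.p4 hz hz'
  have : l z + l z' = 0 := by
    refine P.s10 hy hh hu huy ?_ ?_
    · exact BD.rc (P.sy hu hz (mem_NF.1 h2)) (P.sy hu hz' (mem_NF.1 h2'))
    · exact BD.rc (P.sy hy hz (mem_NF.1 h1)) (P.sy hy hz' (mem_NF.1 h1'))
  rw [← aa (l z) (l z'), this, zero_add]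

/-- a point which is not a neighbour of a heavy point is heavy -/
theorem Pol.s11a [Finite W] (P : Pol D c l) {y : V} (hy : Sc D c y) (hh : Heavy D y) {s : V}
    (hs : Sc D c s) (hsy : s ≠ y) (hn : y ∉ NF D c l s) :
    Nat.card (Wa D y) ≤ Nat.card (Wa D s) := by
  classical
  rw [← P.cardNF hy, ← P.cardNF hs]
  have h1 : ∑ u ∈ NF D c l s, ((NF D c l y).bipartiteAbove (fun u z => D.q z (l u) = c) u).card =
      (NF D c l s).card := by
    rw [Finset.card_eq_sum_ones]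
    refine Finset.sum_congr rfl fun u hu => ?_
    have su := sc_of_NF hu
    have huy : u ≠ y := by rintro rfl; exact hn hu
    obtain ⟨z, hz1, hz2⟩ := P.cn hy su
    rw [Finset.card_eq_one]
    refine ⟨z, ?_⟩
    ext z'
    rw [Finset.mem_bipartiteAbove, mem_singleton]
    constructor
    · rintro ⟨h3, h4⟩
      exact P.cnu hy hh su huy h3 (mem_NF.2 h4) hz1 hz2
    · rintro rfl
      exact ⟨hz1, mem_NF.1 hz2⟩
  have h2 : (NF D c l y).card ≤
      ∑ z ∈ NF D c l y, ((NF D c l s).bipartiteBelow (fun u z => D.q z (l u) = c) z).card := by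
    rw [Finset.card_eq_sum_ones]
    refine Finset.sum_le_sum fun z hz => ?_
    have sz := sc_of_NF hz
    obtain ⟨u, hu1, hu2⟩ := P.cn hs sz
    rw [Nat.one_le_iff_ne_zero]
    refine Finset.card_ne_zero_of_mem (a := u) ?_
    rw [Finset.mem_bipartiteBelow]
    exact ⟨hu1, P.sy sz (sc_of_NF hu1) (mem_NF.1 hu2)⟩
  rw [← Finset.sum_card_bipartiteAbove_eq_sum_card_bipartiteBelow, h1] at h2
  exact h2

/-- the sum over a big neighbourhood is zero -/
theorem Pol.sumNF [Finite W] (P : Pol D c l) {z : V} (hz : Sc D c z)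
    (h4 : 4 ≤ Nat.card (Wa D z)) : ∑ u ∈ NF D c l z, u = 0 := by
  rw [← P.cardNF hz] at h4
  have h3 : 2 < (NF D c l z).card := by omega
  obtain ⟨a0, h0, a1, h1, a2, h2, n01, n02, n12⟩ := Finset.two_lt_card.1 h3
  rw [mem_NF] at h0 h1 h2
  refine sum_zero (d1 := a0 + a1) (d2 := a0 + a2) _ ?_ ?_ ?_ ?_ ?_
  · intro h; apply n01; rw [← aa a0 a1, h, zero_add]
  · intro h; apply n02; rw [← aa a0 a2, h, zero_add]
  · intro h; exact n12 (add_left_cancel h)
  · intro u hu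
    rw [mem_NF] at hu ⊢
    exact BD.l0 hu (BD.lc h0 h1)
  · intro u hu
    rw [mem_NF] at hu ⊢
    exact BD.l0 hu (BD.lc h0 h2)

open Classical in
theorem Pol.s11b [Finite W] (P : Pol D c l) {y : V} (hy : Sc D c y) (hh : Heavy D y) {z0 : V}
    (hz0 : z0 ∈ NF D c l y) (h0 : ∀ z ∈ NF D c l y, z ≠ z0 → ∑ u ∈ NF D c l z, u = 0) :
    ∑ u ∈ univ.filter (fun u : V => Sc D c u), u + y = ∑ u ∈ NF D c l z0, u := by
  have t0 : ∑ z ∈ NF D c l y, ∑ u ∈ NF D c l z, u = ∑ u ∈ NF D c l z0, u :=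
    Finset.sum_eq_single_of_mem z0 hz0 h0
  have t1 : ∑ z ∈ NF D c l y, ∑ u ∈ NF D c l z, u =
      ∑ u : V, ∑ z ∈ NF D c l y, if D.q u (l z) = c then u else 0 := by
    rw [Finset.sum_comm]
    refine Finset.sum_congr rfl fun z _ => ?_
    rw [← Finset.sum_filter]
    rfl
  have t2 : ∀ u : V, (∑ z ∈ NF D c l y, if D.q u (l z) = c then u else 0) =
      if Sc D c u ∧ u ≠ y then u else 0 := by
    intro u
    by_cases hu : Sc D c u
    · by_cases huy : u = y
      · subst huy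
        rw [if_neg (fun h => h.2 rfl)]
        have : ∑ z ∈ NF D c l u, (if D.q u (l z) = c then u else 0) = ∑ _z ∈ NF D c l u, u := by
          refine Finset.sum_congr rfl fun z hz => ?_
          rw [if_pos (P.sy hu (sc_of_NF hz) (mem_NF.1 hz))]
        rw [this]
        refine const_zero _ _ (P.sc0 hu) ?_
        intro z hz
        rw [mem_NF] at hz ⊢
        exact BD.l0 hz (P.p1 hu)
      · rw [if_pos ⟨hu, huy⟩]
        obtain ⟨z, hz1, hz2⟩ := P.cn hy hu
        rw [Finset.sum_eq_single_of_mem z hz1, if_pos (P.sy hu (sc_of_NF hz1) (mem_NF.1 hz2))]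
        intro z' hz' hne
        rw [if_neg]
        intro h
        exact hne (P.cnu hy hh hu huy hz' (mem_NF.2 (P.sy (sc_of_NF hz') hu h)) hz1 hz2)
    · rw [if_neg (fun h => hu h.1)]
      refine Finset.sum_eq_zero fun z _ => ?_
      rw [if_neg]
      intro h
      exact hu ⟨_, h⟩
  rw [t0, Finset.sum_congr rfl (fun u _ => t2 u), ← Finset.sum_filter] at t1
  have e : univ.filter (fun u : V => Sc D c u ∧ u ≠ y) =
      (univ.filter (fun u : V => Sc D c u)).erase y := by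
    ext u
    simp only [mem_filter, mem_univ, true_and, mem_erase]
    tauto
  rw [e] at t1
  rw [t1, ← Finset.sum_erase_add _ _ (mem_filter.2 ⟨mem_univ y, hy⟩), aa]

end S11

section Star

variable {V W B : Type} [AddCommGroup V] [Module (ZMod 2) V] [AddCommGroup W]
  [Module (ZMod 2) W]
  {D : BD V W B} {c : B} {l : V → W}

/-- Steps 7-11 of note 3205: a heavy point with at least four lines is adjacent to every other
point -/
theorem Pol.star [Finite V] [Finite W] (P : Pol D c l) {y : V} (hy : Sc D c y)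
    (hh : Heavy D y) (h4 : 4 ≤ Nat.card (Wa D y)) {s : V} (hs : Sc D c s) (hsy : s ≠ y) :
    Sc D c (y + s) := by
  classical
  have := Fintype.ofFinite V
  by_contra hn
  have hn1 : s ∉ NF D c l y := fun h => hn ((P.ad hy hs).1 (mem_NF.1 h))
  have hn2 : y ∉ NF D c l s := fun h => hn1 (mem_NF.2 (P.sy hs hy (mem_NF.1 h)))
  have hc1 := P.s11a hy hh hs hsy hn2
  have hh' : Heavy D s := fun v hv => (hh v hv).trans hc1
  have h4' : 4 ≤ Nat.card (Wa D s) := h4.trans hc1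
  obtain ⟨z0, hz1, hz2⟩ := P.cn hy hs
  have key : ∀ a b : V, Sc D c a → Sc D c b → Heavy D a → Heavy D b → b ≠ a →
      4 ≤ Nat.card (Wa D b) → b ∉ NF D c l a → z0 ∈ NF D c l a → z0 ∈ NF D c l b →
      ∀ z ∈ NF D c l a, z ≠ z0 → ∑ u ∈ NF D c l z, u = 0 := by
    intro a b ha hb hha hhb hab h4b hna hza hzb z hz hne
    have sz := sc_of_NF hz
    have hzb' : z ∉ NF D c l b := fun h => hne (P.cnu ha hha hb hab hz h hza hzb)
    have hzne : z ≠ b := by rintro rfl; exact hna hz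
    have hbz : b ∉ NF D c l z := fun h => hzb' (mem_NF.2 (P.sy sz hb (mem_NF.1 h)))
    exact P.sumNF sz (h4b.trans (P.s11a hb hhb sz hzne hbz))
  have e1 := P.s11b hy hh hz1 (key y s hy hs hh hh' hsy h4' hn1 hz1 hz2)
  have e2 := P.s11b hs hh' hz2 (key s y hs hy hh' hh hsy.symm h4 hn2 hz2 hz1)
  exact hsy (add_left_cancel (e2.trans e1.symm))

end Star

end Pool.Agent.ZPC2
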