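import Pool.Agent.ZPC2.Base

/-!
Passing from `(V, W)` to `(V_K, W / K)` (note 3205 of helper18), set valued, typed by helper66.
-/

set_option autoImplicit false
set_option linter.unusedSectionVars false

namespace Pool.Agent.ZPC2

variable {V W Q : Type} [AddCommGroup V] [Module (ZMod 2) V] [AddCommGroup W]
  [Module (ZMod 2) W]

theorem q_out (D : BD V W Q) (K : Submodule (ZMod 2) W) (v : VK D K) (w : W) :
    D.q v.1 (Quotient.out (Submodule.Quotient.mk (p := K) w)) = D.q v.1 w := by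
  rw [D.qr]
  apply v.2
  have h : (Submodule.Quotient.mk (Quotient.out (Submodule.Quotient.mk (p := K) w)) : W ⧸ K) =
      Submodule.Quotient.mk w := Quotient.out_eq _
  rw [Submodule.Quotient.eq, ZModModule.sub_eq_add] at h
  exact h

/-- the map `V_K × W / K → Q` -/
noncomputable def fq (D : BD V W Q) (K : Submodule (ZMod 2) W) : BD (VK D K) (W ⧸ K) Q where
  q v w := D.q v.1 (Quotient.out w)
  z := D.z
  qr := by
    intro v w w1
    obtain ⟨w, rfl⟩ := Submodule.Quotient.mk_surjective K w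
    obtain ⟨w1, rfl⟩ := Submodule.Quotient.mk_surjective K w1
    rw [q_out, q_out, ← Submodule.Quotient.mk_add, q_out, D.qr]
  ql := by
    intro v v1 w
    exact D.ql v.1 v1.1 _

variable {D : BD V W Q} {c : Q} {K : Submodule (ZMod 2) W}

theorem fq_mk (v : VK D K) (w : W) : (fq D K).q v (Submodule.Quotient.mk w) = D.q v.1 w :=
  q_out D K v w

theorem sc_fq {v : VK D K} : Sc (fq D K) c v ↔ Sc D c v.1 := by
  constructor
  · rintro ⟨w, hw⟩
    obtain ⟨w, rfl⟩ := Submodule.Quotient.mk_surjective K w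
    rw [fq_mk] at hw
    exact ⟨w, hw⟩
  · rintro ⟨w, hw⟩
    exact ⟨Submodule.Quotient.mk w, (fq_mk v w).trans hw⟩

theorem FW.fq (h : FW D c) : FW (fq D K) c := by
  intro M w w1 h1 h2
  obtain ⟨w, rfl⟩ := Submodule.Quotient.mk_surjective K w
  obtain ⟨w1, rfl⟩ := Submodule.Quotient.mk_surjective K w1
  have hM : ∀ v : VK D K, v ∈ VK (ZPC2.fq D K) M ↔ v.1 ∈ VK D (M.comap K.mkQ) := by
    intro v
    constructor
    · intro hv a ha
      have := hv _ ha
      rw [Submodule.mkQ_apply, fq_mk] at this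
      exact this
    · intro hv a ha
      obtain ⟨a, rfl⟩ := Submodule.Quotient.mk_surjective K a
      rw [fq_mk]
      exact hv a ha
  obtain ⟨v, hv, h3⟩ := h1
  obtain ⟨v', hv', h4⟩ := h2
  rw [fq_mk] at h3 h4
  obtain ⟨t, ht, h5, h6⟩ := h (M.comap K.mkQ) w w1 ⟨v.1, (hM v).1 hv, h3⟩
    ⟨v'.1, (hM v').1 hv', h4⟩
  have htK : t ∈ VK D K := fun a ha => ht a (by
    rw [Submodule.mem_comap]
    have : K.mkQ a = 0 := by simpa using ha
    rw [this]
    exact zero_mem _)
  exact ⟨⟨t, htK⟩, (hM _).2 ht, (fq_mk _ _).trans h5, (fq_mk _ _).trans h6⟩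

theorem FV.fq (h : FV D c) : FV (fq D K) c := by
  rintro u v v1 ⟨w, h1, h2⟩ ⟨w1, h3, h4⟩
  obtain ⟨w, rfl⟩ := Submodule.Quotient.mk_surjective K w
  obtain ⟨w1, rfl⟩ := Submodule.Quotient.mk_surjective K w1
  rw [fq_mk] at h1 h2 h3 h4
  obtain ⟨t, h5, h6, h7⟩ := h u.1 v.1 v1.1 ⟨w, h1, h2⟩ ⟨w1, h3, h4⟩
  exact ⟨Submodule.Quotient.mk t, (fq_mk _ _).trans h5, (fq_mk _ _).trans h6,
    (fq_mk _ _).trans h7⟩

theorem comap_Wa (v : VK D K) : (Wa (fq D K) v).comap K.mkQ = Wa D v.1 := by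
  ext w
  show (ZPC2.fq D K).q v (Submodule.Quotient.mk w) = D.z ↔ D.q v.1 w = D.z
  rw [fq_mk]

instance finQuot [Finite W] (K : Submodule (ZMod 2) W) : Finite (W ⧸ K) :=
  Finite.of_surjective _ (Submodule.mkQ_surjective K)

theorem card_comap [Finite W] (M : Submodule (ZMod 2) (W ⧸ K)) :
    Nat.card (M.comap K.mkQ) = Nat.card K * Nat.card M := by
  have h1 := Submodule.card_eq_card_quotient_mul_card K
  have h2 : (M.comap K.mkQ).toAddSubgroup.index = M.toAddSubgroup.index :=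
    AddSubgroup.index_comap_of_surjective M.toAddSubgroup (f := K.mkQ.toAddMonoidHom)
      (Submodule.mkQ_surjective K)
  have h3 := AddSubgroup.card_mul_index (M.comap K.mkQ).toAddSubgroup
  have h4 := AddSubgroup.card_mul_index M.toAddSubgroup
  have h5 : Nat.card (M.comap K.mkQ).toAddSubgroup = Nat.card (M.comap K.mkQ) := rfl
  have h6 : Nat.card M.toAddSubgroup = Nat.card M := rfl
  rw [h5, h2] at h3
  rw [h6] at h4
  have h7 : M.toAddSubgroup.index ≠ 0 := by
    intro h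
    rw [h, mul_zero] at h4
    have : 0 < Nat.card (W ⧸ K) := Nat.card_pos
    omega
  apply Nat.eq_of_mul_eq_mul_right (Nat.pos_of_ne_zero h7)
  rw [h3, mul_assoc, h4]
  exact h1

theorem card_Wa_fq [Finite W] (v : VK D K) :
    Nat.card (Wa D v.1) = Nat.card K * Nat.card (Wa (fq D K) v) := by
  rw [← comap_Wa, card_comap]

theorem card_inf_fq [Finite W] (v v' : VK D K) :
    Nat.card (Wa D v.1 ⊓ Wa D v'.1 : Submodule (ZMod 2) W) =
      Nat.card K * Nat.card (Wa (fq D K) v ⊓ Wa (fq D K) v' : Submodule (ZMod 2) (W ⧸ K)) := by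
  rw [← comap_Wa, ← comap_Wa, ← Submodule.comap_inf, card_comap]

theorem heavy_fq [Finite W] {y : VK D K} (h : Heavy D y.1) : Heavy (fq D K) y := by
  intro v hv
  have h1 := h v.1 (fun h => hv (Subtype.ext h))
  rw [card_Wa_fq, card_Wa_fq] at h1
  exact Nat.le_of_mul_le_mul_left h1 Nat.card_pos

theorem card_quot_lt [Finite W] {b : W} (hb : b ∈ K) (h0 : b ≠ 0) :
    Nat.card (W ⧸ K) < Nat.card W := by
  have h1 := Submodule.card_eq_card_quotient_mul_card K
  have h2 : 1 < Nat.card K := by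
    rw [Finite.one_lt_card_iff_nontrivial]
    exact ⟨⟨⟨b, hb⟩, 0, fun h => h0 (congrArg Subtype.val h)⟩⟩
  have h3 : 0 < Nat.card (W ⧸ K) := Nat.card_pos
  rw [h1]
  nlinarith

end Pool.Agent.ZPC2
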