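import Pool.Agent.ZPC2.Quot

/-!
Steps 3 to 6 of note 3205 (helper18), set valued, typed by helper66.
-/

set_option autoImplicit false
set_option linter.unusedSectionVars false

namespace Pool.Agent.ZPC2

variable {V W Q : Type} [AddCommGroup V] [Module (ZMod 2) V] [AddCommGroup W]
  [Module (ZMod 2) W] {D : BD V W Q} {c : Q}

/-- Step 3 -/
theorem step3 [Finite V] [Finite W] (hW : FW D c) (hV : FV D c) {x y : V}
    (hy : Heavy D y) (hx : Sc D c x) (hsy : Sc D c y) (hs : Sc D c (x + y))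
    (hd : ∀ w, D.q x w = D.z → D.q y w = D.z → w = 0) (h4 : 4 ≤ Nat.card (Wa D x))
    (hIH : ∀ K : Submodule (ZMod 2) W, (∃ b ∈ K, b ≠ 0) → ∀ t y' : VK D K, Heavy (fq D K) y' →
      Sc (fq D K) c t → Sc (fq D K) c y' → Sc (fq D K) c (t + y') →
      Nat.card (Wa (fq D K) t) =
        2 * Nat.card (Wa (fq D K) t ⊓ Wa (fq D K) y' : Submodule (ZMod 2) (W ⧸ K))) :
    ∃ l, OneLine D c y l ∧ ∀ w v, D.q y w = D.z → D.q v w = c → w = l := by
  have hyx : Ad D c y x := ⟨hx, by rw [add_comm]; exact hs⟩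
  obtain ⟨l, hl⟩ := one_line hV hyx (fun w h1 h2 => hd w h2 h1)
  have hxl : D.q x l = c := (hl.2.2 x).1 hyx
  refine ⟨l, hl, ?_⟩
  by_cases hA : ∀ b ∈ Au hW hV hl, b = 0
  · exact fun w v h1 h2 => E_single hW hV hl hA h1 h2
  exfalso
  push Not at hA
  obtain ⟨t, h1, h2, h3⟩ := two_b hW hV hl hxl
  have hyt := (hl.2.2 t).2 h1
  have e := hIH (Au hW hV hl) hA ⟨t, h3⟩ ⟨y, fun b hb => hb.1⟩ (heavy_fq hy)
    (sc_fq.2 ⟨l, h1⟩) (sc_fq.2 hsy) (sc_fq.2 (by
      show Sc D c (t + y)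
      rw [add_comm]
      exact hyt.2))
  have e1 := card_Wa_fq (D := D) (K := Au hW hV hl) ⟨t, h3⟩
  have e2 := card_inf_fq (D := D) (K := Au hW hV hl) ⟨t, h3⟩ ⟨y, fun b hb => hb.1⟩
  have e3 : (Wa D t ⊓ Wa D y : Submodule (ZMod 2) W) = Au hW hV hl := by
    apply le_antisymm
    · rintro w ⟨hw1, hw2⟩
      exact ⟨hw2, t, h1, hw1⟩
    · intro b hb
      exact ⟨h3 b hb, hb.1⟩
  have e4 : Nat.card (Wa D t) = 2 * Nat.card (Au hW hV hl) := by
    rw [e1, e, ← mul_assoc, mul_comm _ 2, mul_assoc, ← e2]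
    show 2 * Nat.card (Wa D t ⊓ Wa D y : Submodule (ZMod 2) W) = _
    rw [e3]
  have e5 : Nat.card (Wa D x) * Nat.card (Au hW hV hl) ≤ Nat.card (Wa D t) := by
    rw [← Nat.card_prod]
    apply Nat.card_le_card_of_injective
      (fun p : Wa D x × Au hW hV hl => (⟨p.1.1 + p.2.1,
        BD.r0 (h2 _ (mem_Wa.1 p.1.2)) (h3 _ p.2.2)⟩ : Wa D t))
    rintro ⟨⟨a, ha⟩, ⟨b, hb⟩⟩ ⟨⟨a', ha'⟩, ⟨b', hb'⟩⟩ h
    have h5 : a + b = a' + b' := congrArg Subtype.val h
    have h6 : a + a' = b + b' := by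
      have : a + b + (b + a') = a' + b' + (b + a') := by rw [h5]
      calc a + a' = a + b + (b + a') := by rw [add_assoc, ab]
        _ = a' + b' + (b + a') := this
        _ = b + b' := by
          rw [add_comm b a', add_comm a' b', add_assoc, ab, add_comm]
    have h7 : a + a' = 0 := by
      apply hd
      · exact BD.r0 ha ha'
      · rw [h6]
        exact BD.r0 hb.1 hb'.1
    have h8 := h7
    rw [h6] at h8
    exact Prod.ext (Subtype.ext (eq_of_add h7)) (Subtype.ext (eq_of_add h8))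
  have h0 : 0 < Nat.card (Au hW hV hl) := Nat.card_pos
  rw [e4] at e5
  have := Nat.le_of_mul_le_mul_right e5 h0
  omega

section after3
variable [Finite V] [Finite W] (hc : c ≠ D.z) (hW : FW D c) (hV : FV D c) {y : V} {ly : W}
  (hy : Heavy D y) (hsy : Sc D c y) (hl : OneLine D c y ly)
  (hE : ∀ w v, D.q y w = D.z → D.q v w = c → w = ly)
include hc hW hV hy hsy hl hE

omit [Finite V] [Finite W] hc hW hV hy hsy in
theorem nbr_y {u : V} (hu : Ad D c y u) : ∀ w, D.q u w = D.z → D.q y w = D.z → w = 0 := by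
  intro w h1 h2
  have h3 := (hl.2.2 u).1 hu
  have h4 := hE (ly + w) u (BD.r0 hl.1 h2) (BD.r0 h3 h1)
  have := congrArg (fun s => ly + s) h4
  simpa only [ab, ZModModule.add_self] using this

omit [Finite V] in
theorem nbr_line {u : V} (hu : Ad D c y u) :
    ∃ l, OneLine D c u l ∧ ∀ w v, D.q u w = D.z → D.q v w = c → w = l := by
  have h0 := nbr_y hl hE hu
  have huy := hu.symm hsy
  obtain ⟨l, h1⟩ := one_line hV huy h0
  have h2 := Au_zero hW hV h1 hc ((h1.2.2 y).1 huy) h0 hy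
  exact ⟨l, h1, fun w v h3 h4 => E_single hW hV h1 h2 h3 h4⟩

omit [Finite V] in
/-- Step 4 -/
theorem near {v : V} (hv : Sc D c v) (_hvy : v ≠ y) :
    ∃ u, Ad D c y u ∧ Ad D c u v ∧ ∀ w, D.q v w = D.z → D.q u w = D.z → w = 0 := by
  obtain ⟨w, h1, h2⟩ := hV.link hv hsy
  obtain ⟨u1, h3, h4⟩ := hW.link ⟨v, h1⟩ hl.2.1
  have hu : Ad D c y (u1 + y) := (hl.2.2 _).2 (BD.l0 h4 hl.1)
  obtain ⟨l, h5, h6⟩ := nbr_line hc hW hV hy hsy hl hE hu
  have h7 : w = l := h6 w v (BD.lc h3 h2) h1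
  have h8 : D.q v l = c := h7 ▸ h1
  refine ⟨u1 + y, hu, (h5.2.2 v).2 h8, fun w' h9 h10 => ?_⟩
  have h11 := h6 (l + w') v (BD.r0 h5.1 h10) (BD.r0 h8 h9)
  have := congrArg (fun s => l + s) h11
  simpa only [ab, ZModModule.add_self] using this

/-- Step 5 -/
theorem all_line {v : V} (hv : Sc D c v) :
    ∃ l, OneLine D c v l ∧ ∀ w t, D.q v w = D.z → D.q t w = c → w = l := by
  by_cases hvy : v = y
  · rw [hvy]
    exact ⟨ly, hl, hE⟩
  obtain ⟨u, h1, h2, h3⟩ := near hc hW hV hy hsy hl hE hv hvy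
  obtain ⟨l, h4⟩ := one_line hV (h2.symm h1.1) h3
  refine ⟨l, h4, fun w t h5 h6 => E_single hW hV h4 ?_ h5 h6⟩
  intro b hb
  have hlines : ∀ w, (∃ v', D.q v' w = c) → ∃ t, D.q t w = c ∧ D.q t b = D.z := by
    rintro w ⟨v', hv'⟩
    obtain ⟨t, -, h7, h8, h9⟩ := two_a hW hV h4 ⊥ (w := w) (by
      rintro b' ⟨-, t, ht, ht'⟩
      exact ⟨t, mem_VK_bot t, BD.r0 ht ht'⟩)
      ⟨v', mem_VK_bot v', hv'⟩
    exact ⟨t, h8, h9 b hb⟩
  obtain ⟨w0, hw0⟩ := hsy
  obtain ⟨t, ht, h7⟩ := gen hW (Submodule.span (ZMod 2) {b}) {w | D.q y w = c}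
    (Wa D y : Set W) (by
    intro w hw
    obtain ⟨t, h8, h9⟩ := hlines w ⟨y, hw⟩
    refine ⟨t, ?_, h8⟩
    intro a ha
    obtain ⟨r, rfl⟩ := Submodule.mem_span_singleton.1 ha
    rcases smul_cases r b with h | h
    · rw [h, D.q0]
    · rw [h]
      exact h9) (by
    intro a ha w hw
    exact ⟨w + a, BD.r0 hw (mem_Wa.1 ha), fun t h8 h9 => BD.rd h9 h8⟩) w0 hw0
  rw [mem_VK_sup] at ht
  have ht0 : t ≠ 0 := by
    rintro rfl
    rw [D.zq] at h7
    exact hc h7.symm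
  have hle : Wa D y ≤ Wa D t := fun a ha => ht.2 a ha
  have heq : (Wa D y : Set W) = Wa D t := by
    apply Set.eq_of_subset_of_ncard_le hle
    exact hy t ht0
  have hb1 : b ∈ (Wa D y : Set W) := by
    rw [heq]
    exact ht.1 b (Submodule.mem_span_singleton_self b)
  obtain ⟨t', h8, h9⟩ := hlines ly hl.2.1
  have h10 := hE (ly + b) t' (BD.r0 hl.1 hb1) (BD.r0 h8 h9)
  have := congrArg (fun s => ly + s) h10
  simpa only [ab, ZModModule.add_self] using this

/-- Step 6 -/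
theorem exists_pol : ∃ l, Pol D c l := by
  classical
  have hall := fun {v : V} (hv : Sc D c v) => all_line hc hW hV hy hsy hl hE hv
  let l : V → W := fun v => if h : Sc D c v then (hall h).choose else 0
  have hl1 : ∀ {v}, Sc D c v → OneLine D c v (l v) := by
    intro v hv
    have : l v = (hall hv).choose := dif_pos hv
    rw [this]
    exact (hall hv).choose_spec.1
  have hl2 : ∀ {v}, Sc D c v → ∀ w t, D.q v w = D.z → D.q t w = c → w = l v := by
    intro v hv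
    have : l v = (hall hv).choose := dif_pos hv
    rw [this]
    exact (hall hv).choose_spec.2
  have hp5 : ∀ {v w}, D.q v w = c → ∃ u, Sc D c u ∧ l u = w := by
    intro v w hvw
    have hv : Sc D c v := ⟨w, hvw⟩
    obtain ⟨u1, h1, h2⟩ := hW.link ⟨v, hvw⟩ (hl1 hv).2.1
    have h3 := ((hl1 hv).2.2 u1).2 h2
    refine ⟨v + u1, h3.2, ?_⟩
    exact (hl2 h3.2 w v (BD.lc hvw h1) hvw).symm
  refine ⟨l, hc, hW, hV, fun hu => (hl1 hu).1, fun {u v} hu => ((hl1 hu).2.2 v).symm,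
    fun hu h1 h2 => hl2 hu _ _ h1 h2, ?_, hp5⟩
  intro u u' hu hu' huu
  by_contra hne
  set d := u + u' with hd
  have hd0 : d ≠ 0 := fun h => hne (eq_of_add h)
  -- the property
  have hT : ∀ z, Sc D c z → Sc D c (z + d) → l (z + d) = l z → D.q d (l z) = D.z := by
    intro z h1 h2 h3
    have h4 := (hl1 h2).1
    rw [h3] at h4
    exact BD.ld h4 (hl1 h1).1
  have hprop : ∀ z t, Sc D c z → Sc D c (z + d) → l (z + d) = l z → Ad D c z t →
      Sc D c (t + d) ∧ l (t + d) = l t := by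
    intro z t h1 h2 h3 h4
    have h5 := hT z h1 h2 h3
    have h6 := ((hl1 h1).2.2 t).1 h4
    have ht := h4.1
    -- `d` kills `l t`
    have h7 : D.q z (l t) = c := ((hl1 ht).2.2 z).1 (h4.symm h1)
    have h8 : D.q t (l (z + d)) = c := by rw [h3]; exact h6
    have h9 : D.q (z + d) (l t) = c :=
      ((hl1 ht).2.2 (z + d)).1 ((((hl1 h2).2.2 t).2 h8).symm h2)
    have h10 : D.q d (l t) = D.z := BD.ld h9 h7
    have h11 : Sc D c (t + d) := by
      have h12 : Ad D c z (z + t + d) :=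
        ((hl1 h1).2.2 _).2 (BD.l0 (BD.l0' (hl1 h1).1 h6) h5)
      have h13 := h12.2
      rw [add_assoc z t d, ab] at h13
      exact h13
    refine ⟨h11, ?_⟩
    exact (hl2 h11 (l t) z (BD.l0 (hl1 ht).1 h10) h7).symm
  have hu2 : Sc D c (u + d) ∧ l (u + d) = l u := by
    have : u + d = u' := by rw [hd, ab]
    rw [this]
    exact ⟨hu', huu.symm⟩
  have hyd : Sc D c (y + d) ∧ l (y + d) = l y := by
    by_cases huy : u = y
    · rw [← huy]
      exact hu2
    · obtain ⟨z, h1, h2, -⟩ := near hc hW hV hy hsy hl hE hu huy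
      obtain ⟨h3, h4⟩ := hprop u z hu hu2.1 hu2.2 (h2.symm h1.1)
      exact hprop z y h1.1 h3 h4 (h1.symm hsy)
  have hall2 : ∀ v, Sc D c v → D.q d (l v) = D.z := by
    intro v hv
    by_cases hvy : v = y
    · rw [hvy]
      exact hT y hsy hyd.1 hyd.2
    · obtain ⟨z, h1, h2, -⟩ := near hc hW hV hy hsy hl hE hv hvy
      obtain ⟨h3, h4⟩ := hprop y z hsy hyd.1 hyd.2 h1
      obtain ⟨h5, h6⟩ := hprop z v h1.1 h3 h4 h2
      exact hT v hv h5 h6
  have hlines : ∀ v w, D.q v w = c → D.q d w = D.z := by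
    intro v w h
    obtain ⟨z, h1, h2⟩ := hp5 h
    rw [← h2]
    exact hall2 z h1
  obtain ⟨w0, hw0⟩ := hsy
  have hdw0 := hlines y w0 hw0
  have hle : Wa D y ≤ Wa D d := by
    intro a ha
    exact BD.rd (hlines y (w0 + a) (BD.r0 hw0 (mem_Wa.1 ha))) hdw0
  have heq : (Wa D y : Set W) = Wa D d := by
    apply Set.eq_of_subset_of_ncard_le hle
    exact hy d hd0
  have hw1 : w0 ∈ (Wa D y : Set W) := by
    rw [heq]
    exact hdw0
  have hw2 : D.q y w0 = D.z := hw1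
  rw [hw2] at hw0
  exact hc hw0.symm

end after3

end Pool.Agent.ZPC2
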